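import Mathlib

set_option autoImplicit false

namespace Pool.Agent.H432R3.HT

open LaurentPolynomial

/-- Laurent polynomials over the integers -/
abbrev Λ : Type := LaurentPolynomial ℤ

/-- sum of the squares of the coefficients -/
def N (f : Λ) : ℤ := f.coeff.sum fun _ a => a ^ 2

theorem coeff_zero (f : Λ) : (invert f * f).coeff 0 = N f := by
  classical
  have key : ∀ g : Λ, (invert g * f).coeff 0 = g.coeff.sum fun k a => a * f.coeff k := by
    intro g
    induction g using LaurentPolynomial.induction_on' with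
    | add p q hp hq =>
      rw [map_add, add_mul, AddMonoidAlgebra.coeff_add, AddMonoidAlgebra.coeff_add, Finsupp.add_apply, hp, hq, Finsupp.sum_add_index']
      · intro k; simp
      · intro k a b; ring
    | C_mul_T n a =>
      rw [map_mul, invert_C, invert_T]
      have h1 : (C a * T (-n) * f).coeff 0 = a * f.coeff n := by
        rw [← single_eq_C_mul_T, AddMonoidAlgebra.coeff_single_mul_eq_mul_coeff (m₂ := n)]
        intro m _
        omega
      rw [h1, ← single_eq_C_mul_T, AddMonoidAlgebra.coeff_single, Finsupp.sum_single_index]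
      simp
  rw [key]
  unfold N Finsupp.sum
  refine Finset.sum_congr rfl fun k _ => ?_
  ring

/-- Laurent polynomials over the field with two elements -/
abbrev Λ₂ : Type := LaurentPolynomial (ZMod 2)

/-- reduction mod 2 -/
noncomputable def ρ : Λ →+* Λ₂ := AddMonoidAlgebra.mapRingHom ℤ (Int.castRingHom (ZMod 2))

theorem ρ_coeff (f : Λ) (k : ℤ) : (ρ f).coeff k = (f.coeff k : ZMod 2) := by
  unfold ρ
  rw [AddMonoidAlgebra.coeff_mapRingHom]
  rfl

theorem ρ_T (k : ℤ) : ρ (T k) = T k := by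
  unfold ρ T
  rw [AddMonoidAlgebra.mapRingHom_single]
  simp

theorem N_even (f : Λ) (h : ρ f = 0) : (4 : ℤ) ∣ N f := by
  unfold N Finsupp.sum
  refine Finset.dvd_sum fun k _ => ?_
  have h1 : ((f.coeff k : ℤ) : ZMod 2) = 0 := by rw [← ρ_coeff, h]; rfl
  have h2 : (2 : ℤ) ∣ f.coeff k := by exact_mod_cast (ZMod.intCast_zmod_eq_zero_iff_dvd _ 2).1 h1
  obtain ⟨c, hc⟩ := h2
  rw [hc]
  exact ⟨c ^ 2, by ring⟩

theorem N_ge (f : Λ) : ((ρ f).coeff.support.card : ℤ) ≤ N f := by
  unfold N Finsupp.sum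
  have hsub : (ρ f).coeff.support ⊆ f.coeff.support := by
    intro k hk
    rw [Finsupp.mem_support_iff] at hk ⊢
    intro h0
    apply hk
    rw [ρ_coeff, h0]
    simp
  calc ((ρ f).coeff.support.card : ℤ) = ∑ k ∈ (ρ f).coeff.support, (1 : ℤ) := by simp
    _ ≤ ∑ k ∈ (ρ f).coeff.support, (f.coeff k) ^ 2 := by
      refine Finset.sum_le_sum fun k hk => ?_
      have h1 := Finsupp.mem_support_iff.1 (hsub hk)
      have h2 := sq_nonneg (f.coeff k)
      have h3 : (f.coeff k) ^ 2 ≠ 0 := pow_ne_zero 2 h1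
      omega
    _ ≤ ∑ k ∈ f.coeff.support, (f.coeff k) ^ 2 :=
      Finset.sum_le_sum_of_subset_of_nonneg hsub fun k _ _ => sq_nonneg _

theorem wt_pos (g : Λ₂) (h : g ≠ 0) : 1 ≤ g.coeff.support.card := by
  rw [Nat.one_le_iff_ne_zero, Ne, Finset.card_eq_zero, Finsupp.support_eq_empty]
  intro h0
  apply h
  ext k
  rw [h0]
  rfl

theorem xx_ne : (T 1 + T (-1) : Λ₂) ≠ 0 := by
  intro h
  have h1 := congrArg (fun g : Λ₂ => g.coeff 1) h
  simp [AddMonoidAlgebra.coeff_add] at h1

theorem xx1_ne : (1 + (T 1 + T (-1)) : Λ₂) ≠ 0 := by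
  intro h
  have h1 := congrArg (fun g : Λ₂ => g.coeff 1) h
  rw [← T_zero] at h1
  simp only [AddMonoidAlgebra.coeff_add, Finsupp.add_apply, T_apply] at h1
  simp at h1

theorem two_eq : (2 : Λ₂) = 0 := by
  have : (2 : Λ₂) = C 2 := (map_ofNat C 2).symm
  rw [this]
  have h2 : (2 : ZMod 2) = 0 := by decide
  rw [h2, map_zero]

/-- The Hambleton-Teichner form has no vector of norm one. -/
theorem no_norm_one (v0 v1 v2 v3 : Λ)
    (h : ∀ x : Λ, x = T 1 + T (-1) →
      invert v0 * ((1 + x + x ^ 2) * v0 + (x + x ^ 2) * v1 + (1 + x) * v2 + x * v3) +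
      invert v1 * ((x + x ^ 2) * v0 + (1 + x + x ^ 2) * v1 + x * v2 + (1 + x) * v3) +
      invert v2 * ((1 + x) * v0 + x * v1 + 2 * v2) +
      invert v3 * (x * v0 + (1 + x) * v1 + 2 * v3) = 1) : False := by
  have h := h _ rfl
  set x : Λ := T 1 + T (-1) with hx
  have hxi : invert x = x := by
    rw [hx, map_add, invert_T, invert_T]; simp [add_comm]
  let X : Λ := v2 + v3 + (1 + x) * (v0 + v1)
  let Y : Λ := v2 + v3 + x * (v0 + v1)
  let Z : Λ := (v0 - v1) + (v2 - v3)
  let W : Λ := v2 - v3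
  have hsum : invert X * X + invert Y * Y + invert Z * Z + invert W * W = 2 := by
    have e1 : (2 : Λ) = 2 * 1 := by ring
    rw [e1, ← h]
    simp only [X, Y, Z, W, map_add, map_sub, map_mul, map_one, hxi]
    ring
  have hN : N X + N Y + N Z + N W = 2 := by
    have := congrArg (fun f : Λ => f.coeff 0) hsum
    simp only [AddMonoidAlgebra.coeff_add, Finsupp.add_apply, coeff_zero] at this
    rw [this]
    have h2 : (2 : Λ) = C 2 := by simp
    rw [h2, C_apply]
    simp
  -- the code relations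
  have h2 := two_eq
  have hρx : ρ x = T 1 + T (-1) := by rw [hx, map_add, ρ_T, ρ_T]
  set y : Λ₂ := T 1 + T (-1) with hy
  have hZ : ρ Z = (1 + y) * ρ X + y * ρ Y := by
    have : Z = (1 + x) * X + x * Y - 2 * (x * (v0 + v1) + x * (v2 + v3) + x ^ 2 * (v0 + v1) + v1 + v3) := by
      simp only [X, Y, Z]; ring
    rw [this, map_sub, map_add ρ ((1 + x) * X), map_mul ρ (1 + x) X, map_add ρ 1 x, map_one,
      map_mul ρ x Y, hρx, map_mul, map_ofNat, h2, zero_mul, sub_zero]
  have hW : ρ W = y * ρ X + (1 + y) * ρ Y := by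
    have : W = x * X + (1 + x) * Y - 2 * (x * (v0 + v1) + x * (v2 + v3) + x ^ 2 * (v0 + v1) + v3) := by
      simp only [X, Y, W]; ring
    rw [this, map_sub, map_add ρ (x * X), map_mul ρ (1 + x) Y, map_add ρ 1 x, map_one,
      map_mul ρ x X, hρx, map_mul, map_ofNat, h2, zero_mul, sub_zero]
  have nX := N_ge X
  have nY := N_ge Y
  have nZ := N_ge Z
  have nW := N_ge W
  have hy0 : y ≠ 0 := xx_ne
  have hy1 : 1 + y ≠ 0 := xx1_ne
  by_cases hX0 : ρ X = 0
  · by_cases hY0 : ρ Y = 0
    · have hZ0 : ρ Z = 0 := by rw [hZ, hX0, hY0]; ring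
      have hW0 : ρ W = 0 := by rw [hW, hX0, hY0]; ring
      have a1 := N_even X hX0
      have a2 := N_even Y hY0
      have a3 := N_even Z hZ0
      have a4 := N_even W hW0
      omega
    · have hZ0 : ρ Z ≠ 0 := by rw [hZ, hX0, mul_zero, zero_add]; exact mul_ne_zero hy0 hY0
      have hW0 : ρ W ≠ 0 := by rw [hW, hX0, mul_zero, zero_add]; exact mul_ne_zero hy1 hY0
      have a1 := wt_pos _ hY0
      have a2 := wt_pos _ hZ0
      have a3 := wt_pos _ hW0
      omega
  · by_cases hY0 : ρ Y = 0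
    · have hZ0 : ρ Z ≠ 0 := by rw [hZ, hY0, mul_zero, add_zero]; exact mul_ne_zero hy1 hX0
      have hW0 : ρ W ≠ 0 := by rw [hW, hY0, mul_zero, add_zero]; exact mul_ne_zero hy0 hX0
      have a1 := wt_pos _ hX0
      have a2 := wt_pos _ hZ0
      have a3 := wt_pos _ hW0
      omega
    · have a1 := wt_pos _ hX0
      have a2 := wt_pos _ hY0
      have hZ0 : ρ Z = 0 := by
        by_contra hne
        have := wt_pos _ hne
        omega
      have hW0 : ρ W = 0 := by
        by_contra hne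
        have := wt_pos _ hne
        omega
      have e1 : ρ X = ρ Y := by
        have : ρ Z + ρ W = 0 := by rw [hZ0, hW0, add_zero]
        rw [hZ, hW] at this
        linear_combination this - (y * ρ X + y * ρ Y + ρ Y) * h2
      rw [hZ, e1] at hZ0
      apply hY0
      linear_combination hZ0 - (y * ρ Y) * h2

end Pool.Agent.H432R3.HT
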