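import Pool.Agent.H432R3.HTTab

set_option autoImplicit false
set_option maxHeartbeats 4000000

namespace Pool.Agent.H432R3.HT

open Matrix

theorem PA {R : Type*} [CommRing R] (t s : R) (h : t * s = 1) : (P8 s t)ᵀ * A8 t s = T8 t s := by
  ext i j
  fin_cases i <;> fin_cases j <;>
    simp only [P8, A8, T8, Matrix.mul_apply, Matrix.transpose_apply, Fin.sum_univ_eight, Matrix.of_apply,
      Matrix.cons_val', Matrix.cons_val, Fin.reduceFinMk, Fin.isValue, Fin.zero_eta, Fin.mk_one,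
      Matrix.one_apply, Fin.reduceEq, if_true, if_false, reduceIte]
  · linear_combination (4 * t * s + 6 * s ^ 2 + 14 * s + 2) * h
  · linear_combination (4 * t * s + 6 * s ^ 2 + 14 * s + 2) * h
  · linear_combination (-4 * t * s - 6 * s ^ 2 - 14 * s - 2) * h
  · linear_combination (-4 * t * s - 6 * s ^ 2 - 14 * s - 2) * h
  · linear_combination (8 * t * s + 12 * s ^ 2 + 26 * s + 3) * h
  · linear_combination (-4 * t ^ 2 * s - 6 * t ^ 2 - 8 * t * s - 16 * t - 4 * s - 10) * h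
  · linear_combination (-8 * t * s - 12 * s ^ 2 - 26 * s - 3) * h
  · linear_combination (4 * t ^ 2 * s + 6 * t ^ 2 + 8 * t * s + 16 * t + 4 * s + 10) * h
  · linear_combination (4 * t * s + 6 * s ^ 2 + 14 * s + 2) * h
  · linear_combination (4 * t * s + 6 * s ^ 2 + 14 * s + 2) * h
  · linear_combination (-4 * t * s - 6 * s ^ 2 - 14 * s - 2) * h
  · linear_combination (-4 * t * s - 6 * s ^ 2 - 14 * s - 2) * h
  · linear_combination (8 * t * s + 12 * s ^ 2 + 26 * s + 3) * h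
  · linear_combination (-4 * t ^ 2 * s - 6 * t ^ 2 - 8 * t * s - 16 * t - 4 * s - 10) * h
  · linear_combination (-8 * t * s - 12 * s ^ 2 - 26 * s - 3) * h
  · linear_combination (4 * t ^ 2 * s + 6 * t ^ 2 + 8 * t * s + 16 * t + 4 * s + 10) * h
  · linear_combination (-4 * t * s - 6 * s ^ 2 - 14 * s - 2) * h
  · linear_combination (-4 * t * s - 6 * s ^ 2 - 14 * s - 2) * h
  · linear_combination (4 * t * s + 6 * s ^ 2 + 14 * s + 2) * h
  · linear_combination (4 * t * s + 6 * s ^ 2 + 14 * s + 2) * h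
  · linear_combination (-8 * t * s - 12 * s ^ 2 - 26 * s - 3) * h
  · linear_combination (4 * t ^ 2 * s + 6 * t ^ 2 + 8 * t * s + 16 * t + 4 * s + 10) * h
  · linear_combination (8 * t * s + 12 * s ^ 2 + 26 * s + 3) * h
  · linear_combination (-4 * t ^ 2 * s - 6 * t ^ 2 - 8 * t * s - 16 * t - 4 * s - 10) * h
  · linear_combination (-4 * t * s - 6 * s ^ 2 - 14 * s - 2) * h
  · linear_combination (-4 * t * s - 6 * s ^ 2 - 14 * s - 2) * h
  · linear_combination (4 * t * s + 6 * s ^ 2 + 14 * s + 2) * h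
  · linear_combination (4 * t * s + 6 * s ^ 2 + 14 * s + 2) * h
  · linear_combination (-8 * t * s - 12 * s ^ 2 - 26 * s - 3) * h
  · linear_combination (4 * t ^ 2 * s + 6 * t ^ 2 + 8 * t * s + 16 * t + 4 * s + 10) * h
  · linear_combination (8 * t * s + 12 * s ^ 2 + 26 * s + 3) * h
  · linear_combination (-4 * t ^ 2 * s - 6 * t ^ 2 - 8 * t * s - 16 * t - 4 * s - 10) * h
  · linear_combination (8 * t * s + 12 * s ^ 2 + 28 * s + 6) * h
  · linear_combination (8 * t * s + 12 * s ^ 2 + 28 * s + 6) * h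
  · linear_combination (-8 * t * s - 12 * s ^ 2 - 28 * s - 6) * h
  · linear_combination (-8 * t * s - 12 * s ^ 2 - 28 * s - 6) * h
  · linear_combination (16 * t * s + 24 * s ^ 2 + 52 * s + 10) * h
  · linear_combination (-8 * t ^ 2 * s - 12 * t ^ 2 - 16 * t * s - 32 * t - 8 * s - 20) * h
  · linear_combination (-16 * t * s - 24 * s ^ 2 - 52 * s - 10) * h
  · linear_combination (8 * t ^ 2 * s + 12 * t ^ 2 + 16 * t * s + 32 * t + 8 * s + 20) * h
  · linear_combination (-4 * t * s ^ 2 - 8 * t * s + 4 * t - 6 * s ^ 2 - 16 * s - 2) * h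
  · linear_combination (-4 * t * s ^ 2 - 8 * t * s + 4 * t - 6 * s ^ 2 - 16 * s - 2) * h
  · linear_combination (4 * t * s ^ 2 + 8 * t * s - 4 * t + 6 * s ^ 2 + 16 * s + 2) * h
  · linear_combination (4 * t * s ^ 2 + 8 * t * s - 4 * t + 6 * s ^ 2 + 16 * s + 2) * h
  · linear_combination (-8 * t * s ^ 2 - 16 * t * s + 8 * t - 12 * s ^ 2 - 32 * s - 4) * h
  · linear_combination (4 * t ^ 2 * s ^ 2 + 8 * t ^ 2 * s - 4 * t ^ 2 + 8 * t * s ^ 2 + 20 * t * s + 8 * t - 4 * s ^ 2 + 20) * h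
  · linear_combination (8 * t * s ^ 2 + 16 * t * s - 8 * t + 12 * s ^ 2 + 32 * s + 4) * h
  · linear_combination (-4 * t ^ 2 * s ^ 2 - 8 * t ^ 2 * s + 4 * t ^ 2 - 8 * t * s ^ 2 - 20 * t * s - 8 * t + 4 * s ^ 2 - 20) * h
  · linear_combination (-8 * t * s - 12 * s ^ 2 - 28 * s - 6) * h
  · linear_combination (-8 * t * s - 12 * s ^ 2 - 28 * s - 6) * h
  · linear_combination (8 * t * s + 12 * s ^ 2 + 28 * s + 6) * h
  · linear_combination (8 * t * s + 12 * s ^ 2 + 28 * s + 6) * h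
  · linear_combination (-16 * t * s - 24 * s ^ 2 - 52 * s - 10) * h
  · linear_combination (8 * t ^ 2 * s + 12 * t ^ 2 + 16 * t * s + 32 * t + 8 * s + 20) * h
  · linear_combination (16 * t * s + 24 * s ^ 2 + 52 * s + 10) * h
  · linear_combination (-8 * t ^ 2 * s - 12 * t ^ 2 - 16 * t * s - 32 * t - 8 * s - 20) * h
  · linear_combination (4 * t * s ^ 2 + 8 * t * s - 4 * t + 6 * s ^ 2 + 16 * s + 2) * h
  · linear_combination (4 * t * s ^ 2 + 8 * t * s - 4 * t + 6 * s ^ 2 + 16 * s + 2) * h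
  · linear_combination (-4 * t * s ^ 2 - 8 * t * s + 4 * t - 6 * s ^ 2 - 16 * s - 2) * h
  · linear_combination (-4 * t * s ^ 2 - 8 * t * s + 4 * t - 6 * s ^ 2 - 16 * s - 2) * h
  · linear_combination (8 * t * s ^ 2 + 16 * t * s - 8 * t + 12 * s ^ 2 + 32 * s + 4) * h
  · linear_combination (-4 * t ^ 2 * s ^ 2 - 8 * t ^ 2 * s + 4 * t ^ 2 - 8 * t * s ^ 2 - 20 * t * s - 8 * t + 4 * s ^ 2 - 20) * h
  · linear_combination (-8 * t * s ^ 2 - 16 * t * s + 8 * t - 12 * s ^ 2 - 32 * s - 4) * h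
  · linear_combination (4 * t ^ 2 * s ^ 2 + 8 * t ^ 2 * s - 4 * t ^ 2 + 8 * t * s ^ 2 + 20 * t * s + 8 * t - 4 * s ^ 2 + 20) * h

end Pool.Agent.H432R3.HT
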