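import Pool.Agent.H432R3.HTTab

set_option autoImplicit false
set_option maxHeartbeats 4000000

namespace Pool.Agent.H432R3.HT

open Matrix

theorem QP {R : Type*} [CommRing R] (t s : R) (h : t * s = 1) : Q8 t s * P8 t s = 1 := by
  ext i j
  fin_cases i <;> fin_cases j <;>
    simp only [P8, Q8, Matrix.mul_apply, Matrix.transpose_apply, Fin.sum_univ_eight, Matrix.of_apply,
      Matrix.cons_val', Matrix.cons_val, Fin.reduceFinMk, Fin.isValue, Fin.zero_eta, Fin.mk_one,
      Matrix.one_apply, Fin.reduceEq, if_true, if_false, reduceIte]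
  · linear_combination (6 * t ^ 2 + 4 * t * s + 14 * t + 2) * h
  · linear_combination (6 * t ^ 2 + 4 * t * s + 14 * t + 2) * h
  · linear_combination (-6 * t ^ 2 - 4 * t * s - 14 * t - 2) * h
  · linear_combination (-6 * t ^ 2 - 4 * t * s - 14 * t - 2) * h
  · linear_combination (12 * t ^ 2 + 8 * t * s + 28 * t + 6) * h
  · linear_combination (-4 * t ^ 2 * s - 6 * t ^ 2 - 8 * t * s - 16 * t + 4 * s - 2) * h
  · linear_combination (-12 * t ^ 2 - 8 * t * s - 28 * t - 6) * h
  · linear_combination (4 * t ^ 2 * s + 6 * t ^ 2 + 8 * t * s + 16 * t - 4 * s + 2) * h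
  · linear_combination (6 * t ^ 2 + 4 * t * s + 14 * t + 2) * h
  · linear_combination (6 * t ^ 2 + 4 * t * s + 14 * t + 2) * h
  · linear_combination (-6 * t ^ 2 - 4 * t * s - 14 * t - 2) * h
  · linear_combination (-6 * t ^ 2 - 4 * t * s - 14 * t - 2) * h
  · linear_combination (12 * t ^ 2 + 8 * t * s + 28 * t + 6) * h
  · linear_combination (-4 * t ^ 2 * s - 6 * t ^ 2 - 8 * t * s - 16 * t + 4 * s - 2) * h
  · linear_combination (-12 * t ^ 2 - 8 * t * s - 28 * t - 6) * h
  · linear_combination (4 * t ^ 2 * s + 6 * t ^ 2 + 8 * t * s + 16 * t - 4 * s + 2) * h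
  · linear_combination (-6 * t ^ 2 - 4 * t * s - 14 * t - 2) * h
  · linear_combination (-6 * t ^ 2 - 4 * t * s - 14 * t - 2) * h
  · linear_combination (6 * t ^ 2 + 4 * t * s + 14 * t + 2) * h
  · linear_combination (6 * t ^ 2 + 4 * t * s + 14 * t + 2) * h
  · linear_combination (-12 * t ^ 2 - 8 * t * s - 28 * t - 6) * h
  · linear_combination (4 * t ^ 2 * s + 6 * t ^ 2 + 8 * t * s + 16 * t - 4 * s + 2) * h
  · linear_combination (12 * t ^ 2 + 8 * t * s + 28 * t + 6) * h
  · linear_combination (-4 * t ^ 2 * s - 6 * t ^ 2 - 8 * t * s - 16 * t + 4 * s - 2) * h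
  · linear_combination (-6 * t ^ 2 - 4 * t * s - 14 * t - 2) * h
  · linear_combination (-6 * t ^ 2 - 4 * t * s - 14 * t - 2) * h
  · linear_combination (6 * t ^ 2 + 4 * t * s + 14 * t + 2) * h
  · linear_combination (6 * t ^ 2 + 4 * t * s + 14 * t + 2) * h
  · linear_combination (-12 * t ^ 2 - 8 * t * s - 28 * t - 6) * h
  · linear_combination (4 * t ^ 2 * s + 6 * t ^ 2 + 8 * t * s + 16 * t - 4 * s + 2) * h
  · linear_combination (12 * t ^ 2 + 8 * t * s + 28 * t + 6) * h
  · linear_combination (-4 * t ^ 2 * s - 6 * t ^ 2 - 8 * t * s - 16 * t + 4 * s - 2) * h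
  · linear_combination (-4 * t * s - 4 * t - 6 * s - 6) * h
  · linear_combination (-4 * t * s - 4 * t - 6 * s - 6) * h
  · linear_combination (4 * t * s + 4 * t + 6 * s + 6) * h
  · linear_combination (4 * t * s + 4 * t + 6 * s + 6) * h
  · linear_combination (-8 * t * s - 8 * t - 12 * s - 12) * h
  · linear_combination (4 * t ^ 2 * s + 12 * t ^ 2 + 8 * t * s + 28 * t - 4 * s + 4) * h
  · linear_combination (8 * t * s + 8 * t + 12 * s + 12) * h
  · linear_combination (-4 * t ^ 2 * s - 12 * t ^ 2 - 8 * t * s - 28 * t + 4 * s - 4) * h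
  · linear_combination (-8 * t * s - 8 * t - 12 * s - 12) * h
  · linear_combination (-8 * t * s - 8 * t - 12 * s - 12) * h
  · linear_combination (8 * t * s + 8 * t + 12 * s + 12) * h
  · linear_combination (8 * t * s + 8 * t + 12 * s + 12) * h
  · linear_combination (-16 * t * s - 16 * t - 24 * s - 24) * h
  · linear_combination (8 * t ^ 2 * s + 20 * t ^ 2 + 16 * t * s + 48 * t - 8 * s + 12) * h
  · linear_combination (16 * t * s + 16 * t + 24 * s + 24) * h
  · linear_combination (-8 * t ^ 2 * s - 20 * t ^ 2 - 16 * t * s - 48 * t + 8 * s - 12) * h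
  · linear_combination (4 * t * s + 4 * t + 6 * s + 6) * h
  · linear_combination (4 * t * s + 4 * t + 6 * s + 6) * h
  · linear_combination (-4 * t * s - 4 * t - 6 * s - 6) * h
  · linear_combination (-4 * t * s - 4 * t - 6 * s - 6) * h
  · linear_combination (8 * t * s + 8 * t + 12 * s + 12) * h
  · linear_combination (-4 * t ^ 2 * s - 12 * t ^ 2 - 8 * t * s - 28 * t + 4 * s - 4) * h
  · linear_combination (-8 * t * s - 8 * t - 12 * s - 12) * h
  · linear_combination (4 * t ^ 2 * s + 12 * t ^ 2 + 8 * t * s + 28 * t - 4 * s + 4) * h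
  · linear_combination (8 * t * s + 8 * t + 12 * s + 12) * h
  · linear_combination (8 * t * s + 8 * t + 12 * s + 12) * h
  · linear_combination (-8 * t * s - 8 * t - 12 * s - 12) * h
  · linear_combination (-8 * t * s - 8 * t - 12 * s - 12) * h
  · linear_combination (16 * t * s + 16 * t + 24 * s + 24) * h
  · linear_combination (-8 * t ^ 2 * s - 20 * t ^ 2 - 16 * t * s - 48 * t + 8 * s - 12) * h
  · linear_combination (-16 * t * s - 16 * t - 24 * s - 24) * h
  · linear_combination (8 * t ^ 2 * s + 20 * t ^ 2 + 16 * t * s + 48 * t - 8 * s + 12) * h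

end Pool.Agent.H432R3.HT
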