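import Pool.Agent.H432R3.HTTab

set_option autoImplicit false
set_option maxHeartbeats 4000000

namespace Pool.Agent.H432R3.HT

open Matrix

theorem SP {R : Type*} [CommRing R] (t s : R) (h : t * s = 1) : S8 t s * P8 t s = A8 t s := by
  ext i j
  fin_cases i <;> fin_cases j <;>
    simp only [S8, P8, A8, Matrix.mul_apply, Matrix.transpose_apply, Fin.sum_univ_eight, Matrix.of_apply,
      Matrix.cons_val', Matrix.cons_val, Fin.reduceFinMk, Fin.isValue, Fin.zero_eta, Fin.mk_one,
      Matrix.one_apply, Fin.reduceEq, if_true, if_false, reduceIte]
  · linear_combination (-2) * h
  · linear_combination (2) * h
  · linear_combination (-2) * h
  · linear_combination (2) * h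
  · linear_combination (0) * h
  · linear_combination (0) * h
  · linear_combination (0) * h
  · linear_combination (0) * h
  · linear_combination (-2) * h
  · linear_combination (2) * h
  · linear_combination (-2) * h
  · linear_combination (2) * h
  · linear_combination (0) * h
  · linear_combination (0) * h
  · linear_combination (0) * h
  · linear_combination (0) * h
  · linear_combination (0) * h
  · linear_combination (0) * h
  · linear_combination (0) * h
  · linear_combination (0) * h
  · linear_combination (0) * h
  · linear_combination (0) * h
  · linear_combination (0) * h
  · linear_combination (0) * h
  · linear_combination (0) * h
  · linear_combination (0) * h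
  · linear_combination (0) * h
  · linear_combination (0) * h
  · linear_combination (0) * h
  · linear_combination (0) * h
  · linear_combination (0) * h
  · linear_combination (0) * h
  · linear_combination (-1) * h
  · linear_combination (-1) * h
  · linear_combination (1) * h
  · linear_combination (1) * h
  · linear_combination (-2) * h
  · linear_combination (0) * h
  · linear_combination (2) * h
  · linear_combination (0) * h
  · linear_combination (0) * h
  · linear_combination (0) * h
  · linear_combination (0) * h
  · linear_combination (0) * h
  · linear_combination (0) * h
  · linear_combination (4) * h
  · linear_combination (0) * h
  · linear_combination (-4) * h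
  · linear_combination (1) * h
  · linear_combination (1) * h
  · linear_combination (-1) * h
  · linear_combination (-1) * h
  · linear_combination (2) * h
  · linear_combination (0) * h
  · linear_combination (-2) * h
  · linear_combination (0) * h
  · linear_combination (0) * h
  · linear_combination (0) * h
  · linear_combination (0) * h
  · linear_combination (0) * h
  · linear_combination (0) * h
  · linear_combination (-4) * h
  · linear_combination (0) * h
  · linear_combination (4) * h

end Pool.Agent.H432R3.HT
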