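import Pool.Agent.H432R3.HTPQ
import Pool.Agent.H432R3.HTQP
import Pool.Agent.H432R3.HTSP
import Pool.Agent.H432R3.HTPA
import Pool.Agent.H432R3.HTNorm

set_option autoImplicit false
set_option maxHeartbeats 4000000
set_option linter.unusedSimpArgs false

namespace Pool.Agent.H432R3.HT

open LaurentPolynomial Matrix

/-- the Hambleton-Teichner form -/
noncomputable def LL : Matrix (Fin 4) (Fin 4) Λ :=
  !![1 + (T 1 + T (-1)) + (T 1 + T (-1)) ^ 2, (T 1 + T (-1)) + (T 1 + T (-1)) ^ 2, 1 + (T 1 + T (-1)), T 1 + T (-1);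
     (T 1 + T (-1)) + (T 1 + T (-1)) ^ 2, 1 + (T 1 + T (-1)) + (T 1 + T (-1)) ^ 2, T 1 + T (-1), 1 + (T 1 + T (-1));
     1 + (T 1 + T (-1)), T 1 + T (-1), 2, 0;
     T 1 + T (-1), 1 + (T 1 + T (-1)), 0, 2]

/-- its inverse -/
noncomputable def LI : Matrix (Fin 4) (Fin 4) Λ :=
  !![2, 0, -(1 + (T 1 + T (-1))), -(T 1 + T (-1));
     0, 2, -(T 1 + T (-1)), -(1 + (T 1 + T (-1)));
     -(1 + (T 1 + T (-1))), -(T 1 + T (-1)), 1 + (T 1 + T (-1)) + (T 1 + T (-1)) ^ 2, (T 1 + T (-1)) + (T 1 + T (-1)) ^ 2;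
     -(T 1 + T (-1)), -(1 + (T 1 + T (-1))), (T 1 + T (-1)) + (T 1 + T (-1)) ^ 2, 1 + (T 1 + T (-1)) + (T 1 + T (-1)) ^ 2]

theorem LL_LI : LL * LI = 1 := by
  ext1 i j
  fin_cases i <;> fin_cases j <;>
    simp [LL, LI, Matrix.mul_apply, Fin.sum_univ_four] <;> ring

theorem LI_LL : LI * LL = 1 := by
  rw [mul_eq_one_comm]; exact LL_LI

theorem ts : (T 1 : Λ) * T (-1) = 1 := by
  rw [← T_add]; simp

/-- the index equivalence -/
def e : Fin 4 ⊕ Fin 2 × Fin 2 ≃ Fin 8 :=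
  (Equiv.sumCongr (Equiv.refl _) ((Equiv.prodComm _ _).trans finProdFinEquiv)).trans finSumFinEquiv

theorem map_P8 {R S : Type*} [CommRing R] [CommRing S] (φ : R →+* S) (t s : R) :
    (P8 t s).map φ = P8 (φ t) (φ s) := by
  ext i j
  fin_cases i <;> fin_cases j <;> simp [P8, map_ofNat]

theorem e0 : e (Sum.inl 0) = 0 := rfl
theorem e1 : e (Sum.inl 1) = 1 := rfl
theorem e2 : e (Sum.inl 2) = 2 := rfl
theorem e3 : e (Sum.inl 3) = 3 := rfl
theorem e4 : e (Sum.inr (0, 0)) = 4 := rfl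
theorem e5 : e (Sum.inr (1, 0)) = 5 := rfl
theorem e6 : e (Sum.inr (0, 1)) = 6 := rfl
theorem e7 : e (Sum.inr (1, 1)) = 7 := rfl

theorem src_eq : Matrix.fromBlocks LL 0 0 (Matrix.blockDiagonal (fun _ : Fin 2 =>
    (!![0, T 1 - 1; T (-1) - 1, 0] : Matrix (Fin 2) (Fin 2) Λ))) = (S8 (T 1) (T (-1))).submatrix e e := by
  have h := ts
  ext1 i j
  rcases i with i | ⟨i, i'⟩ <;> rcases j with j | ⟨j, j'⟩
  · fin_cases i <;> fin_cases j <;>
      simp only [LL, S8, Matrix.submatrix_apply, Matrix.fromBlocks_apply₁₁, Fin.reduceFinMk, Fin.isValue,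
        Fin.zero_eta, Fin.mk_one, e0, e1, e2, e3, Matrix.of_apply, Matrix.cons_val', Matrix.cons_val] <;>
      first | ring1 | linear_combination (2 : Λ) * h
  · fin_cases i <;> fin_cases j <;> fin_cases j' <;>
      simp only [LL, S8, Matrix.submatrix_apply, Matrix.fromBlocks_apply₁₂, Fin.reduceFinMk, Fin.isValue,
        Fin.zero_eta, Fin.mk_one, e0, e1, e2, e3, e4, e5, e6, e7, Matrix.of_apply, Matrix.cons_val', Matrix.cons_val,
        Matrix.zero_apply]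
  · fin_cases i <;> fin_cases i' <;> fin_cases j <;>
      simp only [LL, S8, Matrix.submatrix_apply, Matrix.fromBlocks_apply₂₁, Fin.reduceFinMk, Fin.isValue,
        Fin.zero_eta, Fin.mk_one, e0, e1, e2, e3, e4, e5, e6, e7, Matrix.of_apply, Matrix.cons_val', Matrix.cons_val,
        Matrix.zero_apply]
  · fin_cases i <;> fin_cases i' <;> fin_cases j <;> fin_cases j' <;>
      simp [S8, Matrix.submatrix_apply, e0, e1, e2, e3, e4, e5, e6, e7, Matrix.blockDiagonal_apply, add_comm, sub_eq_add_neg]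

theorem tgt_eq : Matrix.fromBlocks (1 : Matrix (Fin 4) (Fin 4) Λ) 0 0 (Matrix.blockDiagonal (fun _ : Fin 2 =>
    (!![0, T 1 - 1; T (-1) - 1, 0] : Matrix (Fin 2) (Fin 2) Λ))) = (T8 (T 1) (T (-1))).submatrix e e := by
  ext1 i j
  rcases i with i | ⟨i, i'⟩ <;> rcases j with j | ⟨j, j'⟩
  · fin_cases i <;> fin_cases j <;>
      simp [T8, Matrix.submatrix_apply, e0, e1, e2, e3, e4, e5, e6, e7]
  · fin_cases i <;> fin_cases j <;> fin_cases j' <;>
      simp [T8, Matrix.submatrix_apply, e0, e1, e2, e3, e4, e5, e6, e7]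
  · fin_cases i <;> fin_cases i' <;> fin_cases j <;>
      simp [T8, Matrix.submatrix_apply, e0, e1, e2, e3, e4, e5, e6, e7]
  · fin_cases i <;> fin_cases i' <;> fin_cases j <;> fin_cases j' <;>
      simp [T8, Matrix.submatrix_apply, e0, e1, e2, e3, e4, e5, e6, e7, Matrix.blockDiagonal_apply, add_comm, sub_eq_add_neg]

/-- integral base change at `t = 1` -/
def P0 : Matrix (Fin 4) (Fin 4) ℤ := !![1, 0, -1, 0; 0, 1, 0, -1; -1, -1, 2, 1; -1, -1, 1, 2]

def Q0 : Matrix (Fin 4) (Fin 4) ℤ := !![2, 1, 1, 0; 1, 2, 0, 1; 1, 1, 1, 0; 1, 1, 0, 1]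

def L0 : Matrix (Fin 4) (Fin 4) ℤ := !![7, 6, 3, 2; 6, 7, 2, 3; 3, 2, 2, 0; 2, 3, 0, 2]

theorem P0Q0 : P0 * Q0 = 1 := by decide
theorem Q0P0 : Q0 * P0 = 1 := by decide
theorem P0L0 : P0ᵀ * L0 * P0 = 1 := by decide

theorem LL_map {ε : Λ →+* ℤ} (h : ε (T 1) = 1) (h' : ε (T (-1)) = 1) : LL.map ε = L0 := by
  ext i j
  fin_cases i <;> fin_cases j <;> simp [LL, L0, map_ofNat, h, h']

theorem main :
    ¬ (∀ (σ : LaurentPolynomial ℤ →+* LaurentPolynomial ℤ) (ε : LaurentPolynomial ℤ →+* ℤ),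
      σ (T 1) = T (-1) → ε (T 1) = 1 →
      ∀ (H2 : Matrix (Fin 2) (Fin 2) (LaurentPolynomial ℤ)),
        H2 = !![0, T 1 - 1; T (-1) - 1, 0] →
      ∀ (k : ℕ) (Q : Matrix (Fin k) (Fin k) ℤ), Qᵀ = Q → IsUnit Q.det →
      ∀ (g r : ℕ) (L : Matrix (Fin r) (Fin r) (LaurentPolynomial ℤ)),
        (L.map σ)ᵀ = L → L.det ≠ 0 →
        (∃ (P Q1 : Matrix (Fin 2 × Fin g) (Fin r) (LaurentPolynomial ℤ))
            (P' Q2 : Matrix (Fin r) (Fin 2 × Fin g) (LaurentPolynomial ℤ))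
            (S1 M : Matrix (Fin r) (Fin r) (LaurentPolynomial ℤ))
            (S2 : Matrix (Fin 2 × Fin g) (Fin 2 × Fin g) (LaurentPolynomial ℤ)),
            P * L = Matrix.blockDiagonal (fun _ : Fin g => H2) * Q1 ∧
            P' * Matrix.blockDiagonal (fun _ : Fin g => H2) = L * Q2 ∧
            P' * P = 1 + L * S1 ∧
            P * P' = 1 + Matrix.blockDiagonal (fun _ : Fin g => H2) * S2 ∧
            (L.map (algebraMap (LaurentPolynomial ℤ) (FractionRing (LaurentPolynomial ℤ))))⁻¹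
              - ((P.map σ)ᵀ).map (algebraMap (LaurentPolynomial ℤ) (FractionRing (LaurentPolynomial ℤ)))
                * ((Matrix.blockDiagonal (fun _ : Fin g => H2)).map
                    (algebraMap (LaurentPolynomial ℤ) (FractionRing (LaurentPolynomial ℤ))))⁻¹
                * P.map (algebraMap (LaurentPolynomial ℤ) (FractionRing (LaurentPolynomial ℤ)))
              = M.map (algebraMap (LaurentPolynomial ℤ) (FractionRing (LaurentPolynomial ℤ)))) →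
        (∃ (P : Matrix (Fin r) (Fin k ⊕ Fin 2 × Fin g) ℤ)
            (P' : Matrix (Fin k ⊕ Fin 2 × Fin g) (Fin r) ℤ),
            P * P' = 1 ∧ P' * P = 1 ∧
            Pᵀ * L.map ε * P = Matrix.fromBlocks Q 0 0 0) →
        (∃ (n : ℕ) (P : Matrix (Fin r ⊕ Fin 2 × Fin n) (Fin k ⊕ Fin 2 × Fin (g + n)) (LaurentPolynomial ℤ))
            (P' : Matrix (Fin k ⊕ Fin 2 × Fin (g + n)) (Fin r ⊕ Fin 2 × Fin n) (LaurentPolynomial ℤ)),
            P * P' = 1 ∧ P' * P = 1 ∧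
            (P.map σ)ᵀ * Matrix.fromBlocks L 0 0 (Matrix.blockDiagonal (fun _ : Fin n => H2)) * P
              = Matrix.fromBlocks (Q.map (Int.castRingHom (LaurentPolynomial ℤ))) 0 0
                  (Matrix.blockDiagonal (fun _ : Fin (g + n) => H2))) →
        ∃ (P : Matrix (Fin r) (Fin k ⊕ Fin 2 × Fin g) (LaurentPolynomial ℤ))
          (P' : Matrix (Fin k ⊕ Fin 2 × Fin g) (Fin r) (LaurentPolynomial ℤ)),
          P * P' = 1 ∧ P' * P = 1 ∧
          (P.map σ)ᵀ * L * P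
            = Matrix.fromBlocks (Q.map (Int.castRingHom (LaurentPolynomial ℤ))) 0 0
                (Matrix.blockDiagonal (fun _ : Fin g => H2))) := by
  intro hall
  have hε1 : (LaurentPolynomial.eval₂ (Int.castRingHom ℤ) (1 : ℤˣ)) (T 1) = 1 := by
    rw [LaurentPolynomial.eval₂_T]; simp
  have hε2 : (LaurentPolynomial.eval₂ (Int.castRingHom ℤ) (1 : ℤˣ)) (T (-1)) = 1 := by
    rw [LaurentPolynomial.eval₂_T]; simp
  have hσ1 : ((invert (R := ℤ) : Λ ≃ₐ[ℤ] Λ) : Λ →+* Λ) (T 1) = T (-1) := by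
    simp
  have hσ2 : ((invert (R := ℤ) : Λ ≃ₐ[ℤ] Λ) : Λ →+* Λ) (T (-1)) = T 1 := by
    simp
  have hLσ : (LL.map ((invert (R := ℤ) : Λ ≃ₐ[ℤ] Λ) : Λ →+* Λ))ᵀ = LL := by
    ext1 i j
    rw [Matrix.transpose_apply, Matrix.map_apply]
    fin_cases i <;> fin_cases j <;>
      simp only [LL, Fin.reduceFinMk, Fin.isValue,
        Fin.zero_eta, Fin.mk_one, Matrix.of_apply, Matrix.cons_val', Matrix.cons_val, map_add, map_one,
        map_pow, map_zero, map_ofNat, hσ1, hσ2] <;> ring1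
  have hdet : LL.det ≠ 0 := by
    intro h0
    have h1 := congrArg Matrix.det LL_LI
    rw [Matrix.det_mul, h0, zero_mul, Matrix.det_one] at h1
    exact zero_ne_one h1
  obtain ⟨P, P', hP1, hP2, hP3⟩ := hall _ _ hσ1 hε1 _ rfl 4 1 (by simp) (by simp) 0 4 LL hLσ hdet
    ⟨0, 0, 0, 0, -LI, LI, 0, by simp, by simp, by rw [Matrix.mul_neg, LL_LI]; simp,
      Subsingleton.elim _ _, by
        have h1 : LL.map (algebraMap Λ (FractionRing Λ)) * LI.map (algebraMap Λ (FractionRing Λ)) = 1 := by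
          rw [← Matrix.map_mul, LL_LI]; simp
        rw [Matrix.inv_eq_right_inv h1]
        simp⟩
    ⟨P0.submatrix id (Equiv.sumEmpty (Fin 4) (Fin 2 × Fin 0)),
      Q0.submatrix (Equiv.sumEmpty (Fin 4) (Fin 2 × Fin 0)) id, by
        have : P0.submatrix id (Equiv.sumEmpty (Fin 4) (Fin 2 × Fin 0)) *
            Q0.submatrix (Equiv.sumEmpty (Fin 4) (Fin 2 × Fin 0)) id = (P0 * Q0).submatrix id id :=
          Matrix.submatrix_mul_equiv _ _ _ _ _
        rw [this, P0Q0]; rfl, by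
        rw [← Matrix.submatrix_mul _ _ _ _ _ Function.bijective_id, Q0P0]
        exact Matrix.submatrix_one_equiv _, by
        rw [LL_map hε1 hε2]
        have h2 : (P0.submatrix id (Equiv.sumEmpty (Fin 4) (Fin 2 × Fin 0)))ᵀ * L0 *
            P0.submatrix id (Equiv.sumEmpty (Fin 4) (Fin 2 × Fin 0)) =
            (P0ᵀ * L0 * P0).submatrix (Equiv.sumEmpty (Fin 4) (Fin 2 × Fin 0))
              (Equiv.sumEmpty (Fin 4) (Fin 2 × Fin 0)) := by
          rw [Matrix.submatrix_mul _ _ _ id _ Function.bijective_id,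
            Matrix.submatrix_mul _ _ _ id _ Function.bijective_id]
          rfl
        rw [h2, P0L0, Matrix.submatrix_one_equiv]
        ext1 i j
        rcases i with i | ⟨_, i⟩
        · rcases j with j | ⟨_, j⟩
          · simp [Matrix.one_apply]
          · exact j.elim0
        · exact i.elim0⟩
    ⟨2, (P8 (T 1) (T (-1))).submatrix e e, (Q8 (T 1) (T (-1))).submatrix e e, by
        have := Matrix.submatrix_mul_equiv (P8 (T 1 : Λ) (T (-1))) (Q8 (T 1) (T (-1))) e e e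
        rw [this, PQ _ _ ts]
        exact Matrix.submatrix_one_equiv _, by
        have := Matrix.submatrix_mul_equiv (Q8 (T 1 : Λ) (T (-1))) (P8 (T 1) (T (-1))) e e e
        rw [this, QP _ _ ts]
        exact Matrix.submatrix_one_equiv _, by
        rw [src_eq]
        have h1 : (((P8 (T 1 : Λ) (T (-1))).submatrix e e).map
            ((invert (R := ℤ) : Λ ≃ₐ[ℤ] Λ) : Λ →+* Λ))ᵀ = ((P8 (T (-1) : Λ) (T 1))ᵀ).submatrix e e := by
          rw [← Matrix.submatrix_map, map_P8, hσ1, hσ2]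
          rfl
        rw [h1, Matrix.submatrix_mul_equiv, Matrix.submatrix_mul_equiv, Matrix.mul_assoc, SP _ _ ts,
          PA _ _ ts, ← tgt_eq]
        have h3 : (1 : Matrix (Fin 4) (Fin 4) ℤ).map (Int.castRingHom (LaurentPolynomial ℤ)) = 1 := by
          simp
        rw [h3]⟩
  have h00 := congrFun (congrFun hP3 (Sum.inl 0)) (Sum.inl 0)
  rw [Matrix.mul_assoc, Matrix.mul_apply] at h00
  refine no_norm_one (P 0 (Sum.inl 0)) (P 1 (Sum.inl 0)) (P 2 (Sum.inl 0)) (P 3 (Sum.inl 0)) ?_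
  rintro x rfl
  have hLP : ∀ i, (LL * P) i (Sum.inl 0) = LL i 0 * P 0 (Sum.inl 0) + LL i 1 * P 1 (Sum.inl 0) +
      LL i 2 * P 2 (Sum.inl 0) + LL i 3 * P 3 (Sum.inl 0) := fun i => by
    rw [Matrix.mul_apply, Fin.sum_univ_four]
  rw [Fin.sum_univ_four, Matrix.fromBlocks_apply₁₁, Matrix.map_apply, Matrix.one_apply_eq, map_one,
    hLP, hLP, hLP, hLP] at h00
  have l00 : LL 0 0 = 1 + (T 1 + T (-1)) + (T 1 + T (-1)) ^ 2 := rfl
  have l01 : LL 0 1 = (T 1 + T (-1)) + (T 1 + T (-1)) ^ 2 := rfl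
  have l02 : LL 0 2 = 1 + (T 1 + T (-1)) := rfl
  have l03 : LL 0 3 = T 1 + T (-1) := rfl
  have l10 : LL 1 0 = (T 1 + T (-1)) + (T 1 + T (-1)) ^ 2 := rfl
  have l11 : LL 1 1 = 1 + (T 1 + T (-1)) + (T 1 + T (-1)) ^ 2 := rfl
  have l12 : LL 1 2 = T 1 + T (-1) := rfl
  have l13 : LL 1 3 = 1 + (T 1 + T (-1)) := rfl
  have l20 : LL 2 0 = 1 + (T 1 + T (-1)) := rfl
  have l21 : LL 2 1 = T 1 + T (-1) := rfl
  have l22 : LL 2 2 = 2 := rfl
  have l23 : LL 2 3 = 0 := rfl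
  have l30 : LL 3 0 = T 1 + T (-1) := rfl
  have l31 : LL 3 1 = 1 + (T 1 + T (-1)) := rfl
  have l32 : LL 3 2 = 0 := rfl
  have l33 : LL 3 3 = 2 := rfl
  rw [l00, l01, l02, l03, l10, l11, l12, l13, l20, l21, l22, l23, l30, l31, l32, l33] at h00
  refine Eq.trans ?_ h00
  have h1 : ∀ i, (P.map ((invert (R := ℤ) : Λ ≃ₐ[ℤ] Λ) : Λ →+* Λ))ᵀ (Sum.inl 0) i =
      invert (P i (Sum.inl 0)) := fun i => rfl
  rw [h1, h1, h1, h1]
  ring

end Pool.Agent.H432R3.HT
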