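import Mathlib

set_option autoImplicit false

namespace Pool.Agent.H432R3.HT

open Matrix

section
variable {R : Type*} [CommRing R]

/-- explicit matrix -/
def P8 (t s : R) : Matrix (Fin 8) (Fin 8) R :=
  !![1, -1, 0, 0, 0, 0, 0, 0;
  0, 0, 1, -1, 0, 0, 0, 0;
  -t ^ 2 - 2 * t + 1 + s, -t ^ 2 - t + 2 + 2 * s, t ^ 2 + t - 1 - 2 * s, t ^ 2 + 2 * t - 1 - s, -2 * t ^ 2 - 3 * t + 2 + 3 * s, t ^ 3 + 2 * t ^ 2 - t - 2, 2 * t ^ 2 + 3 * t - 2 - 3 * s, -t ^ 3 - 2 * t ^ 2 + t + 2;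
  t ^ 2 + t - 1 - 2 * s, t ^ 2 + 2 * t - 1 - s, -t ^ 2 - 2 * t + 1 + s, -t ^ 2 - t + 2 + 2 * s, 2 * t ^ 2 + 3 * t - 2 - 3 * s, -t ^ 3 - 2 * t ^ 2 + t + 2, -2 * t ^ 2 - 3 * t + 2 + 3 * s, t ^ 3 + 2 * t ^ 2 - t - 2;
  -4 - 7 * s - 3 * s ^ 2, -4 - 7 * s - 3 * s ^ 2, 4 + 7 * s + 3 * s ^ 2, 4 + 7 * s + 3 * s ^ 2, -6 - 13 * s - 6 * s ^ 2, 4 * t + 8 + 4 * s, 7 + 13 * s + 6 * s ^ 2, -4 * t - 8 - 4 * s;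
  -1 - s, -1 - s, 1 + s, 1 + s, -2 - 2 * s, t + 2, 2 + 2 * s, -t - 1;
  4 + 7 * s + 3 * s ^ 2, 4 + 7 * s + 3 * s ^ 2, -4 - 7 * s - 3 * s ^ 2, -4 - 7 * s - 3 * s ^ 2, 7 + 13 * s + 6 * s ^ 2, -4 * t - 8 - 4 * s, -6 - 13 * s - 6 * s ^ 2, 4 * t + 8 + 4 * s;
  1 + s, 1 + s, -1 - s, -1 - s, 2 + 2 * s, -t - 1, -2 - 2 * s, t + 2]

/-- explicit matrix -/
def Q8 (t s : R) : Matrix (Fin 8) (Fin 8) R :=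
  !![2 * t + 2 - s - s ^ 2, -t - 1 + 2 * s + s ^ 2, 3 * t + 3 - 3 * s - 2 * s ^ 2, -3 * t - 2 + 3 * s + 2 * s ^ 2, t - s, -3 * t ^ 3 - 4 * t ^ 2 + 3 * t + 4, -t + s, 3 * t ^ 3 + 4 * t ^ 2 - 3 * t - 4;
  2 * t + 1 - s - s ^ 2, -t - 1 + 2 * s + s ^ 2, 3 * t + 3 - 3 * s - 2 * s ^ 2, -3 * t - 2 + 3 * s + 2 * s ^ 2, t - s, -3 * t ^ 3 - 4 * t ^ 2 + 3 * t + 4, -t + s, 3 * t ^ 3 + 4 * t ^ 2 - 3 * t - 4;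
  -t - 1 + 2 * s + s ^ 2, 2 * t + 2 - s - s ^ 2, -3 * t - 2 + 3 * s + 2 * s ^ 2, 3 * t + 3 - 3 * s - 2 * s ^ 2, -t + s, 3 * t ^ 3 + 4 * t ^ 2 - 3 * t - 4, t - s, -3 * t ^ 3 - 4 * t ^ 2 + 3 * t + 4;
  -t - 1 + 2 * s + s ^ 2, 2 * t + 1 - s - s ^ 2, -3 * t - 2 + 3 * s + 2 * s ^ 2, 3 * t + 3 - 3 * s - 2 * s ^ 2, -t + s, 3 * t ^ 3 + 4 * t ^ 2 - 3 * t - 4, t - s, -3 * t ^ 3 - 4 * t ^ 2 + 3 * t + 4;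
  2 + 3 * s + s ^ 2, -2 - 3 * s - s ^ 2, 4 + 6 * s + 2 * s ^ 2, -4 - 6 * s - 2 * s ^ 2, 2 + s, -4 * t ^ 2 - 8 * t - 4, -1 - s, 4 * t ^ 2 + 8 * t + 4;
  3 + 5 * s + 2 * s ^ 2, -3 - 5 * s - 2 * s ^ 2, 6 + 10 * s + 4 * s ^ 2, -6 - 10 * s - 4 * s ^ 2, 2 + 2 * s, -6 * t ^ 2 - 13 * t - 6, -2 - 2 * s, 6 * t ^ 2 + 13 * t + 7;
  -2 - 3 * s - s ^ 2, 2 + 3 * s + s ^ 2, -4 - 6 * s - 2 * s ^ 2, 4 + 6 * s + 2 * s ^ 2, -1 - s, 4 * t ^ 2 + 8 * t + 4, 2 + s, -4 * t ^ 2 - 8 * t - 4;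
  -3 - 5 * s - 2 * s ^ 2, 3 + 5 * s + 2 * s ^ 2, -6 - 10 * s - 4 * s ^ 2, 6 + 10 * s + 4 * s ^ 2, -2 - 2 * s, 6 * t ^ 2 + 13 * t + 7, 2 + 2 * s, -6 * t ^ 2 - 13 * t - 6]

/-- explicit matrix -/
def S8 (t s : R) : Matrix (Fin 8) (Fin 8) R :=
  !![t ^ 2 + t + 3 + s + s ^ 2, t ^ 2 + t + 2 + s + s ^ 2, t + 1 + s, t + s, 0, 0, 0, 0;
  t ^ 2 + t + 2 + s + s ^ 2, t ^ 2 + t + 3 + s + s ^ 2, t + s, t + 1 + s, 0, 0, 0, 0;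
  t + 1 + s, t + s, 2, 0, 0, 0, 0, 0;
  t + s, t + 1 + s, 0, 2, 0, 0, 0, 0;
  0, 0, 0, 0, 0, t - 1, 0, 0;
  0, 0, 0, 0, -1 + s, 0, 0, 0;
  0, 0, 0, 0, 0, 0, 0, t - 1;
  0, 0, 0, 0, 0, 0, -1 + s, 0]

/-- explicit matrix -/
def T8 (t s : R) : Matrix (Fin 8) (Fin 8) R :=
  !![1, 0, 0, 0, 0, 0, 0, 0;
  0, 1, 0, 0, 0, 0, 0, 0;
  0, 0, 1, 0, 0, 0, 0, 0;
  0, 0, 0, 1, 0, 0, 0, 0;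
  0, 0, 0, 0, 0, t - 1, 0, 0;
  0, 0, 0, 0, -1 + s, 0, 0, 0;
  0, 0, 0, 0, 0, 0, 0, t - 1;
  0, 0, 0, 0, 0, 0, -1 + s, 0]

/-- explicit matrix -/
def A8 (t s : R) : Matrix (Fin 8) (Fin 8) R :=
  !![-t ^ 2 - t + 2 + 2 * s, -t ^ 2 - t + 1 + 2 * s, t ^ 2 + 2 * t - 1 - s, t ^ 2 + 2 * t - 1 - s, -2 * t ^ 2 - 3 * t + 2 + 3 * s, t ^ 3 + 2 * t ^ 2 - t - 2, 2 * t ^ 2 + 3 * t - 2 - 3 * s, -t ^ 3 - 2 * t ^ 2 + t + 2;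
  t ^ 2 + 2 * t - 1 - s, t ^ 2 + 2 * t - 1 - s, -t ^ 2 - t + 2 + 2 * s, -t ^ 2 - t + 1 + 2 * s, 2 * t ^ 2 + 3 * t - 2 - 3 * s, -t ^ 3 - 2 * t ^ 2 + t + 2, -2 * t ^ 2 - 3 * t + 2 + 3 * s, t ^ 3 + 2 * t ^ 2 - t - 2;
  -2 * t ^ 2 - 3 * t + 3 + 3 * s, -2 * t ^ 2 - 3 * t + 3 + 3 * s, 2 * t ^ 2 + 3 * t - 2 - 3 * s, 2 * t ^ 2 + 3 * t - 2 - 3 * s, -4 * t ^ 2 - 6 * t + 4 + 6 * s, 2 * t ^ 3 + 4 * t ^ 2 - 2 * t - 4, 4 * t ^ 2 + 6 * t - 4 - 6 * s, -2 * t ^ 3 - 4 * t ^ 2 + 2 * t + 4;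
  2 * t ^ 2 + 3 * t - 2 - 3 * s, 2 * t ^ 2 + 3 * t - 2 - 3 * s, -2 * t ^ 2 - 3 * t + 3 + 3 * s, -2 * t ^ 2 - 3 * t + 3 + 3 * s, 4 * t ^ 2 + 6 * t - 4 - 6 * s, -2 * t ^ 3 - 4 * t ^ 2 + 2 * t + 4, -4 * t ^ 2 - 6 * t + 4 + 6 * s, 2 * t ^ 3 + 4 * t ^ 2 - 2 * t - 4;
  -t + s, -t + s, t - s, t - s, -2 * t + 2 * s, t ^ 2 + t - 2, 2 * t - 2 * s, -t ^ 2 + 1;
  4 + 3 * s - 4 * s ^ 2 - 3 * s ^ 3, 4 + 3 * s - 4 * s ^ 2 - 3 * s ^ 3, -4 - 3 * s + 4 * s ^ 2 + 3 * s ^ 3, -4 - 3 * s + 4 * s ^ 2 + 3 * s ^ 3, 6 + 7 * s - 7 * s ^ 2 - 6 * s ^ 3, -4 * t - 4 + 4 * s + 4 * s ^ 2, -7 - 6 * s + 7 * s ^ 2 + 6 * s ^ 3, 4 * t + 4 - 4 * s - 4 * s ^ 2;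
  t - s, t - s, -t + s, -t + s, 2 * t - 2 * s, -t ^ 2 + 1, -2 * t + 2 * s, t ^ 2 + t - 2;
  -4 - 3 * s + 4 * s ^ 2 + 3 * s ^ 3, -4 - 3 * s + 4 * s ^ 2 + 3 * s ^ 3, 4 + 3 * s - 4 * s ^ 2 - 3 * s ^ 3, 4 + 3 * s - 4 * s ^ 2 - 3 * s ^ 3, -7 - 6 * s + 7 * s ^ 2 + 6 * s ^ 3, 4 * t + 4 - 4 * s - 4 * s ^ 2, 6 + 7 * s - 7 * s ^ 2 - 6 * s ^ 3, -4 * t - 4 + 4 * s + 4 * s ^ 2]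

end

end Pool.Agent.H432R3.HT
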