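import Mathlib

/-!
# A ZFC regular crowded P-space all of whose discrete subsets are closed

Take a family `B i` (`i ∈ I`) of subsets of `X` such that all countable Boolean combinations are
non-empty, where `I = Set X × X`.  The sets that are nowhere dense for the topology generated by
countable Boolean combinations form a sigma-ideal.  Changing each `B (E, x)` by the nowhere dense set
`E ∪ {x}` (whenever `E` is nowhere dense) gives a topology for which discrete sets are
closed.
-/

set_option autoImplicit false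

namespace Pool.H432R3.PSp

open Set Topology

universe u v

section Abstract

variable {X : Type u} {I : Type v}

/-- A condition: a set of indices with signs. -/
abbrev Cond (I : Type v) := Set I × (I → Prop)

/-- The cell of a condition. -/
def cell (B : I → Set X) (p : Cond I) : Set X := {x | ∀ i ∈ p.1, (x ∈ B i ↔ p.2 i)}

/-- Extension of conditions. -/
def Ext (p q : Cond I) : Prop := p.1 ⊆ q.1 ∧ ∀ i ∈ p.1, (q.2 i ↔ p.2 i)

lemma Ext.refl (p : Cond I) : Ext p p := ⟨subset_rfl, fun _ _ => Iff.rfl⟩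

lemma Ext.trans {p q r : Cond I} (h1 : Ext p q) (h2 : Ext q r) : Ext p r :=
  ⟨h1.1.trans h2.1, fun i hi => (h2.2 i (h1.1 hi)).trans (h1.2 i hi)⟩

lemma Ext.cell_subset {B : I → Set X} {p q : Cond I} (h : Ext p q) : cell B q ⊆ cell B p :=
  fun _ hx i hi => (hx i (h.1 hi)).trans (h.2 i hi)

/-- `E` is nowhere dense for the topology generated by countable Boolean combinations. -/
def Nwd (B : I → Set X) (E : Set X) : Prop :=
  ∀ p : Cond I, p.1.Countable → ∃ q : Cond I, q.1.Countable ∧ Ext p q ∧ ∀ x ∈ cell B q, x ∉ E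

lemma Nwd.mono {B : I → Set X} {E F : Set X} (h : Nwd B F) (hEF : E ⊆ F) : Nwd B E := by
  intro p hp
  obtain ⟨q, hq, hpq, hx⟩ := h p hp
  exact ⟨q, hq, hpq, fun x hxq hxE => hx x hxq (hEF hxE)⟩

lemma Nwd.iUnion {B : I → Set X} {E : ℕ → Set X} (h : ∀ n, Nwd B (E n)) : Nwd B (⋃ n, E n) := by
  intro p hp
  choose f hf1 hf2 hf3 using h
  let s : ℕ → {q : Cond I // q.1.Countable} := fun n =>
    Nat.rec ⟨p, hp⟩ (fun n q => ⟨f n q.1 q.2, hf1 n q.1 q.2⟩) n
  have hs0 : s 0 = ⟨p, hp⟩ := rfl
  have hs : ∀ n, s (n + 1) = ⟨f n (s n).1 (s n).2, hf1 n (s n).1 (s n).2⟩ := fun n => rfl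
  have hstep : ∀ n, Ext (s n).1 (s (n + 1)).1 := by
    intro n
    rw [hs n]
    exact hf2 n (s n).1 (s n).2
  have hmono : ∀ m n, m ≤ n → Ext (s m).1 (s n).1 := by
    intro m n hmn
    induction n, hmn using Nat.le_induction with
    | base => exact Ext.refl _
    | succ k _ ih => exact ih.trans (hstep k)
  let q : Cond I := (⋃ n, (s n).1.1, fun i => ∃ n, i ∈ (s n).1.1 ∧ (s n).1.2 i)
  have hq : ∀ n, Ext (s n).1 q := by
    intro n
    refine ⟨subset_iUnion (fun n => (s n).1.1) n, ?_⟩
    intro i hi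
    constructor
    · rintro ⟨m, him, hm⟩
      rcases le_total m n with h | h
      · exact ((hmono m n h).2 i him).2 hm
      · exact ((hmono n m h).2 i hi).1 hm
    · intro h
      exact ⟨n, hi, h⟩
  refine ⟨q, countable_iUnion (fun n => (s n).2), hq 0, ?_⟩
  intro x hx hxE
  obtain ⟨n, hn⟩ := mem_iUnion.1 hxE
  have h1 := (hq (n + 1)).cell_subset hx
  rw [hs n] at h1
  exact hf3 n (s n).1 (s n).2 x h1 hn

lemma Nwd.empty (B : I → Set X) : Nwd B (∅ : Set X) :=
  fun p hp => ⟨p, hp, Ext.refl p, fun _ _ h => h⟩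

lemma Nwd.union {B : I → Set X} {E F : Set X} (hE : Nwd B E) (hF : Nwd B F) : Nwd B (E ∪ F) := by
  intro p hp
  obtain ⟨q, hq, hpq, hx⟩ := hE p hp
  obtain ⟨r, hr, hqr, hy⟩ := hF q hq
  refine ⟨r, hr, hpq.trans hqr, ?_⟩
  rintro x hxr (h | h)
  · exact hx x (hqr.cell_subset hxr) h
  · exact hy x hxr h

lemma Nwd.biUnion {B : I → Set X} {J : Type*} {S : Set J} (hS : S.Countable) {N : J → Set X}
    (h : ∀ i ∈ S, Nwd B (N i)) : Nwd B (⋃ i ∈ S, N i) := by
  rcases S.eq_empty_or_nonempty with rfl | hne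
  · simpa using Nwd.empty B
  · obtain ⟨f, hf⟩ := hS.exists_eq_range hne
    have : (⋃ i ∈ S, N i) = ⋃ n, N (f n) := by
      rw [hf]
      simp
    rw [this]
    apply Nwd.iUnion
    intro n
    apply h
    rw [hf]
    exact mem_range_self n

lemma Nwd.singleton {B : I → Set X} (hI : ¬ (univ : Set I).Countable) (x : X) :
    Nwd B ({x} : Set X) := by
  classical
  intro p hp
  have : ∃ i, i ∉ p.1 := by
    by_contra hcon
    push Not at hcon
    exact hI (hp.mono (fun i _ => hcon i))
  obtain ⟨i, hi⟩ := this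
  refine ⟨(insert i p.1, fun j => if j = i then ¬ (x ∈ B i) else p.2 j), hp.insert i, ⟨subset_insert _ _, ?_⟩, ?_⟩
  · intro j hj
    have : j ≠ i := by
      rintro rfl
      exact hi hj
    simp [this]
  · intro y hy hyx
    rw [mem_singleton_iff] at hyx
    subst hyx
    have := hy i (mem_insert _ _)
    simp at this

/-- The class of `x` determined by the sets `C i`, `i ∈ S`. -/
def cls (C : I → Set X) (x : X) (S : Set I) : Set X := {y | ∀ i ∈ S, (y ∈ C i ↔ x ∈ C i)}

/-- The P-space topology generated by the sets `C i` and their complements. -/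
@[instance_reducible]
def topo (C : I → Set X) : TopologicalSpace X where
  IsOpen U := ∀ x ∈ U, ∃ S : Set I, S.Countable ∧ cls C x S ⊆ U
  isOpen_univ := fun x _ => ⟨∅, countable_empty, subset_univ _⟩
  isOpen_inter := by
    intro U V hU hV x hx
    obtain ⟨S, hS, h1⟩ := hU x hx.1
    obtain ⟨T, hT, h2⟩ := hV x hx.2
    refine ⟨S ∪ T, hS.union hT, fun y hy => ⟨h1 fun i hi => hy i (Or.inl hi), h2 fun i hi => hy i (Or.inr hi)⟩⟩
  isOpen_sUnion := by
    intro s hs x hx
    obtain ⟨U, hU, hxU⟩ := hx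
    obtain ⟨S, hS, h1⟩ := hs U hU x hxU
    exact ⟨S, hS, h1.trans (subset_sUnion_of_mem hU)⟩

lemma isOpen_cls (C : I → Set X) (x : X) {S : Set I} (hS : S.Countable) :
    IsOpen[topo C] (cls C x S) := by
  intro y hy
  exact ⟨S, hS, fun z hz i hi => (hz i hi).trans (hy i hi)⟩

lemma isClosed_cls (C : I → Set X) (x : X) {S : Set I} (hS : S.Countable) :
    IsClosed[topo C] (cls C x S) := by
  letI := topo C
  rw [← isOpen_compl_iff]
  intro y hy
  refine ⟨S, hS, ?_⟩
  intro z hz hzx
  apply hy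
  intro i hi
  exact (hz i hi).symm.trans (hzx i hi)

lemma mem_cls (C : I → Set X) (x : X) (S : Set I) : x ∈ cls C x S := fun _ _ => Iff.rfl

lemma isOpen_iInter_topo (C : I → Set X) (U : ℕ → Set X) (hU : ∀ n, IsOpen[topo C] (U n)) :
    IsOpen[topo C] (⋂ n, U n) := by
  intro x hx
  have : ∀ n, ∃ S : Set I, S.Countable ∧ cls C x S ⊆ U n := fun n => hU n x (mem_iInter.1 hx n)
  choose S hS h using this
  refine ⟨⋃ n, S n, countable_iUnion hS, ?_⟩
  intro y hy
  rw [mem_iInter]
  intro n
  exact h n fun i hi => hy i (mem_iUnion.2 ⟨n, hi⟩)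

lemma regular_topo (C : I → Set X) : @RegularSpace X (topo C) := by
  letI := topo C
  apply RegularSpace.of_exists_mem_nhds_isClosed_subset
  intro x s hs
  obtain ⟨U, hUs, hU, hx⟩ := mem_nhds_iff.1 hs
  obtain ⟨S, hS, h1⟩ := hU x hx
  exact ⟨cls C x S, (isOpen_cls C x hS).mem_nhds (mem_cls C x S), isClosed_cls C x hS, h1.trans hUs⟩

end Abstract

section Main

variable {X : Type u}

open Classical in
/-- The modified family. -/
noncomputable def modi (B : Set X × X → Set X) (i : Set X × X) : Set X :=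
  if Nwd B i.1 ∧ i.2 ∉ i.1 then (B i \ i.1) ∪ {i.2} else B i

/-- The set where the modification takes place. -/
def chg (B : Set X × X → Set X) (i : Set X × X) : Set X := {x | ¬ (x ∈ modi B i ↔ x ∈ B i)}

lemma nwd_chg (B : Set X × X → Set X) (hI : ¬ (univ : Set (Set X × X)).Countable)
    (i : Set X × X) : Nwd B (chg B i) := by
  classical
  by_cases h : Nwd B i.1 ∧ i.2 ∉ i.1
  · refine (h.1.union (Nwd.singleton hI i.2)).mono ?_
    intro x hx
    by_contra hcon
    rw [mem_union, not_or] at hcon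
    apply hx
    unfold modi
    rw [if_pos h]
    constructor
    · rintro (h1 | h1)
      · exact h1.1
      · exact absurd h1 hcon.2
    · intro h1
      exact Or.inl ⟨h1, hcon.1⟩
  · have : chg B i = ∅ := by
      ext x
      simp only [chg, modi, if_neg h]
      simp
    rw [this]
    exact Nwd.empty B

/-- The abstract theorem: from an omega_1-independent family indexed by `Set X × X`. -/
theorem main_of_family (B : Set X × X → Set X)
    (hI : ¬ (univ : Set (Set X × X)).Countable)
    (hB : ∀ p : Cond (Set X × X), p.1.Countable → (cell B p).Nonempty) :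
    ∃ (t : TopologicalSpace X),
      T3Space X ∧
      (∀ U : ℕ → Set X, (∀ n, IsOpen (U n)) → IsOpen (⋂ n, U n)) ∧
      ¬ (∀ A : Set X, ¬ IsClosed A →
          ∃ D : Set X, D ⊆ A ∧ DiscreteTopology D ∧ (closure D \ A).Nonempty) := by
  classical
  set C := modi B with hC
  letI tt := topo C
  have hsing : ∀ x : X, Nwd B ({x} : Set X) := fun x => Nwd.singleton hI x
  have hchg : ∀ (S : Set (Set X × X)), S.Countable → Nwd B (⋃ i ∈ S, chg B i) := fun S hS =>
    Nwd.biUnion hS fun i _ => nwd_chg B hI i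
  have hnc : ∀ (x : X) (i : Set X × X), x ∉ chg B i → (x ∈ C i ↔ x ∈ B i) := by
    intro x i hx
    by_contra hcon
    exact hx hcon
  -- nowhere dense sets are closed
  have hclosed : ∀ E : Set X, Nwd B E → IsClosed E := by
    intro E hE
    rw [← isOpen_compl_iff]
    intro x hx
    refine ⟨{(E, x)}, countable_singleton _, ?_⟩
    intro y hy hyE
    have h1 := hy (E, x) (mem_singleton _)
    have hcond : Nwd B (E, x).1 ∧ (E, x).2 ∉ (E, x).1 := ⟨hE, hx⟩
    have hCi : C (E, x) = (B (E, x) \ E) ∪ {x} := by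
      rw [hC]
      unfold modi
      rw [if_pos hcond]
    rw [hCi] at h1
    have h2 : y ∈ (B (E, x) \ E) ∪ {x} := h1.2 (Or.inr rfl)
    rcases h2 with h2 | h2
    · exact h2.2 hyE
    · rw [mem_singleton_iff] at h2
      subst h2
      exact hx hyE
  -- discrete sets are nowhere dense
  have hdisc : ∀ D : Set X, DiscreteTopology D → Nwd B D := by
    intro D hD
    by_contra hcon
    unfold Nwd at hcon
    push Not at hcon
    obtain ⟨p, hp, hpD⟩ := hcon
    obtain ⟨p', hp'c, hpp', hp'⟩ := hchg p.1 hp p hp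
    obtain ⟨e, he, heD⟩ := hpD p' hp'c hpp'
    have heN : ∀ i ∈ p.1, (e ∈ C i ↔ e ∈ B i) := by
      intro i hi
      apply hnc
      intro h
      exact hp' e he (mem_iUnion₂.2 ⟨i, hi, h⟩)
    have hepB : ∀ i ∈ p.1, (e ∈ C i ↔ p.2 i) := fun i hi =>
      (heN i hi).trans (hpp'.cell_subset he i hi)
    -- discreteness at e
    have hex : ∃ T : Set (Set X × X), T.Countable ∧ ∀ y ∈ D, y ∈ cls C e T → y = e := by
      have h1 : IsOpen ({⟨e, heD⟩} : Set D) := isOpen_discrete _
      obtain ⟨U, hU, hU2⟩ := isOpen_induced_iff.1 h1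
      have heU : e ∈ U := by
        have : (⟨e, heD⟩ : D) ∈ (Subtype.val ⁻¹' U : Set D) := by
          rw [hU2]
          exact mem_singleton _
        exact this
      obtain ⟨T, hT, hTU⟩ := hU e heU
      refine ⟨T, hT, ?_⟩
      intro y hyD hy
      have : (⟨y, hyD⟩ : D) ∈ (Subtype.val ⁻¹' U : Set D) := hTU hy
      rw [hU2, mem_singleton_iff] at this
      exact congrArg Subtype.val this
    obtain ⟨T, hT, hTe⟩ := hex
    let q : Cond (Set X × X) := (p.1 ∪ T, fun i => e ∈ C i)
    have hpq : Ext p q := ⟨subset_union_left, fun i hi => hepB i hi⟩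
    obtain ⟨q', hq'c, hqq', hq'⟩ :=
      ((hchg T hT).union (hsing e)) q (hp.union hT)
    obtain ⟨y, hy, hyD⟩ := hpD q' hq'c (hpq.trans hqq')
    have hyN := hq' y hy
    rw [mem_union, not_or] at hyN
    apply hyN.2
    rw [mem_singleton_iff]
    apply hTe y hyD
    intro i hi
    have h1 : y ∈ C i ↔ y ∈ B i := by
      apply hnc
      intro h
      exact hyN.1 (mem_iUnion₂.2 ⟨i, hi, h⟩)
    exact h1.trans (hqq'.cell_subset hy i (Or.inr hi))
  -- no isolated points
  have hcrowd : ∀ x : X, ¬ IsOpen ({x} : Set X) := by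
    intro x hx
    obtain ⟨S, hS, hSx⟩ := hx x (mem_singleton _)
    let q : Cond (Set X × X) := (S, fun i => x ∈ C i)
    obtain ⟨q', hq'c, hqq', hq'⟩ := ((hchg S hS).union (hsing x)) q hS
    obtain ⟨y, hy⟩ := hB q' hq'c
    have hyN := hq' y hy
    rw [mem_union, not_or] at hyN
    apply hyN.2
    apply hSx
    intro i hi
    have h1 : y ∈ C i ↔ y ∈ B i := by
      apply hnc
      intro h
      exact hyN.1 (mem_iUnion₂.2 ⟨i, hi, h⟩)
    exact h1.trans (hqq'.cell_subset hy i hi)
  refine ⟨tt, ?_, ?_, ?_⟩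
  · haveI : RegularSpace X := regular_topo C
    haveI : T1Space X := ⟨fun x => hclosed {x} (hsing x)⟩
    exact {}
  · intro U hU
    exact isOpen_iInter_topo C U hU
  · intro h
    obtain ⟨x, -⟩ := hB (∅, fun _ => True) countable_empty
    have hA : ¬ IsClosed ({x}ᶜ : Set X) := by
      rw [isClosed_compl_iff]
      exact hcrowd x
    obtain ⟨D, hDA, hD, y, hyD, hyA⟩ := h _ hA
    rw [(hclosed D (hdisc D hD)).closure_eq] at hyD
    exact hyA (hDA hyD)

end Main

section Family

/-- The base set. -/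
abbrev K := ℕ → Bool
/-- The underlying set of the example. -/
abbrev XX := (ℕ → K) × (ℕ → Set ℕ)

/-- The Engelking-Karlowicz family. -/
def ek (Y : Set K) : Set XX := {x | ∃ n, x.2 n = {m | x.1 m ∈ Y}}

lemma ek_indep (S : Set (Set K)) (hS : S.Countable) (P : Set K → Prop) :
    ∃ x : XX, ∀ Y ∈ S, (x ∈ ek Y ↔ P Y) := by
  classical
  rcases S.eq_empty_or_nonempty with rfl | hne
  · exact ⟨(fun _ _ => true, fun _ => ∅), fun Y hY => absurd hY (by simp)⟩
  obtain ⟨f, hf⟩ := hS.exists_eq_range hne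
  -- separating points
  have hsep : ∀ k : ℕ × ℕ, ∃ z : K, f k.1 ≠ f k.2 → ¬ (z ∈ f k.1 ↔ z ∈ f k.2) := by
    intro k
    by_cases h : f k.1 = f k.2
    · exact ⟨fun _ => true, fun h' => absurd h h'⟩
    · by_contra hcon
      push Not at hcon
      exact h (Set.ext fun z => (hcon z).2)
  choose z hz using hsep
  let a : ℕ → K := fun n => z (Nat.unpair n)
  have hsep2 : ∀ i j, f i ≠ f j → {m | a m ∈ f i} ≠ {m | a m ∈ f j} := by
    intro i j hij heq
    have h1 := hz (i, j) hij
    apply h1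
    have h2 : Nat.pair i j ∈ {m | a m ∈ f i} ↔ Nat.pair i j ∈ {m | a m ∈ f j} := by rw [heq]
    simpa [a] using h2
  -- a set different from all traces
  obtain ⟨d, hd⟩ : ∃ d : Set ℕ, ∀ n, d ≠ {m | a m ∈ f n} := by
    refine ⟨{n | a n ∉ f n}, ?_⟩
    intro n h
    have : n ∈ {n | a n ∉ f n} ↔ n ∈ {m | a m ∈ f n} := by rw [h]
    simp at this
  refine ⟨(a, fun n => if P (f n) then {m | a m ∈ f n} else d), ?_⟩
  intro Y hY
  rw [hf] at hY
  obtain ⟨k, rfl⟩ := hY
  constructor
  · rintro ⟨n, hn⟩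
    simp only at hn
    split_ifs at hn with h
    · by_contra hcon
      have : f n ≠ f k := by
        intro h'
        rw [h'] at h
        exact hcon h
      exact hsep2 n k this hn
    · exact absurd hn (hd k)
  · intro h
    refine ⟨k, ?_⟩
    simp only
    rw [if_pos h]

open Cardinal in
lemma exists_inj : ∃ g : Set XX × XX → Set K, Function.Injective g := by
  have hK : #K = 𝔠 := by simp [K]
  have hXX : #XX = 𝔠 := by
    have h1 : #(ℕ → K) = 𝔠 := by
      rw [← Cardinal.power_def]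
      simp [hK]
    have h2 : #(ℕ → Set ℕ) = 𝔠 := by
      rw [← Cardinal.power_def]
      simp
    rw [Cardinal.mk_prod, h1, h2]
    simp
  have h : #(Set XX × XX) ≤ #(Set K) := by
    rw [Cardinal.mk_prod, Cardinal.mk_set, Cardinal.mk_set, hXX, hK]
    simp only [Cardinal.lift_id]
    have h3 : (𝔠 : Cardinal) ≤ 2 ^ (𝔠 : Cardinal) := (Cardinal.cantor _).le
    calc (2 : Cardinal) ^ (𝔠 : Cardinal) * 𝔠 ≤ 2 ^ (𝔠 : Cardinal) * 2 ^ (𝔠 : Cardinal) :=
          mul_le_mul_right h3 _
      _ = 2 ^ (𝔠 : Cardinal) := by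
          rw [Cardinal.mul_eq_self]
          exact Cardinal.aleph0_le_continuum.trans h3
  obtain ⟨g⟩ : Nonempty ((Set XX × XX) ↪ Set K) := h
  exact ⟨g, g.injective⟩

end Family

end Pool.H432R3.PSp
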