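import Mathlib

/-!
# Basics on the circle group used for the construction of a pseudocompact group
-/

set_option autoImplicit false

namespace Pool.H432R3.ZG

open Set Cardinal Filter
open scoped Topology

/-- The circle group `ℝ/ℤ`. -/
abbrev T := UnitAddCircle

/-- The pairing of an integral vector of finite support with a family of elements of `T`. -/
noncomputable def lc {J : Type} (x : J → T) (c : J →₀ ℤ) : T := c.sum fun i n => n • x i

section lc

variable {J : Type}

lemma lc_add_left (x y : J → T) (c : J →₀ ℤ) : lc (x + y) c = lc x c + lc y c := by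
  unfold lc
  rw [← Finsupp.sum_add]
  apply Finsupp.sum_congr
  intro i _
  simp [zsmul_add]

lemma lc_zero_left (c : J →₀ ℤ) : lc (0 : J → T) c = 0 := by
  unfold lc
  simp [Finsupp.sum]

lemma lc_neg_left (x : J → T) (c : J →₀ ℤ) : lc (-x) c = - lc x c := by
  rw [eq_neg_iff_add_eq_zero, ← lc_add_left]
  simp [lc_zero_left]

lemma lc_sub_left (x y : J → T) (c : J →₀ ℤ) : lc (x - y) c = lc x c - lc y c := by
  rw [sub_eq_add_neg, lc_add_left, lc_neg_left, sub_eq_add_neg]

lemma lc_add_right (x : J → T) (c d : J →₀ ℤ) : lc x (c + d) = lc x c + lc x d := by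
  classical
  unfold lc
  rw [Finsupp.sum_add_index']
  · intro i
    simp
  · intro i a b
    exact add_smul a b (x i)

lemma lc_zero_right (x : J → T) : lc x 0 = 0 := by
  unfold lc
  simp

/-- `lc` as a homomorphism. -/
noncomputable def lcHom (x : J → T) : (J →₀ ℤ) →+ T where
  toFun := lc x
  map_zero' := lc_zero_right x
  map_add' := lc_add_right x

lemma lc_sub_right (x : J → T) (c d : J →₀ ℤ) : lc x (c - d) = lc x c - lc x d :=
  map_sub (lcHom x) c d

lemma lc_smul_right (x : J → T) (n : ℤ) (c : J →₀ ℤ) : lc x (n • c) = n • lc x c :=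
  map_zsmul (lcHom x) n c

lemma lc_smul_left (x : J → T) (n : ℤ) (c : J →₀ ℤ) : lc (n • x) c = n • lc x c := by
  unfold lc
  rw [Finsupp.smul_sum]
  apply Finsupp.sum_congr
  intro i _
  simp only [Pi.smul_apply]
  rw [smul_comm]

lemma lc_single (x : J → T) (i : J) (n : ℤ) : lc x (Finsupp.single i n) = n • x i := by
  unfold lc
  simp

lemma lc_congr {x y : J → T} {c : J →₀ ℤ} (h : ∀ i ∈ c.support, x i = y i) : lc x c = lc y c := by
  unfold lc
  apply Finsupp.sum_congr
  intro i hi
  rw [h i hi]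

lemma lc_mem {x : J → T} {c : J →₀ ℤ} {D : AddSubgroup T} (h : ∀ i ∈ c.support, x i ∈ D) :
    lc x c ∈ D := by
  unfold lc Finsupp.sum
  exact sum_mem fun i hi => D.zsmul_mem (h i hi) _

lemma continuous_lc (c : J →₀ ℤ) : Continuous fun x : J → T => lc x c := by
  unfold lc Finsupp.sum
  fun_prop

end lc

section hull

/-- A real representative. -/
noncomputable def rep (t : T) : ℝ := Function.surjInv (QuotientAddGroup.mk_surjective) t

lemma rep_spec (t : T) : ((rep t : ℝ) : T) = t := Function.surjInv_eq _ t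

/-- The divisible hull of the subgroup generated by `W`, made from a subfield of `ℝ`. -/
noncomputable def hull (W : Set T) : AddSubgroup T :=
  (Subfield.closure (rep '' W)).toSubring.toAddSubgroup.map (QuotientAddGroup.mk' (AddSubgroup.zmultiples (1 : ℝ)))

lemma mem_hull {W : Set T} {t : T} : t ∈ hull W ↔ ∃ r ∈ Subfield.closure (rep '' W), ((r : ℝ) : T) = t := by
  unfold hull
  rw [AddSubgroup.mem_map]
  rfl

lemma subset_hull (W : Set T) : W ⊆ hull W := by
  intro t ht
  exact mem_hull.2 ⟨rep t, Subfield.subset_closure (mem_image_of_mem _ ht), rep_spec t⟩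

lemma hull_div {W : Set T} {N : ℤ} (hN : N ≠ 0) {t : T} (ht : N • t ∈ hull W) : t ∈ hull W := by
  obtain ⟨r, hr, hrt⟩ := mem_hull.1 ht
  rw [← rep_spec t] at hrt
  have h1 : ((r - N * rep t : ℝ) : T) = 0 := by
    have h1' : ((r - N * rep t : ℝ) : T) = (r : T) - ((N * rep t : ℝ) : T) := rfl
    rw [h1', hrt, sub_eq_zero, ← zsmul_eq_mul]
    rfl
  obtain ⟨k, hk⟩ := (AddCircle.coe_eq_zero_iff (1 : ℝ)).1 h1
  have h2 : rep t = (r - k) / N := by
    have hN' : (N : ℝ) ≠ 0 := by exact_mod_cast hN
    field_simp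
    simp at hk
    linarith
  refine mem_hull.2 ⟨rep t, ?_, rep_spec t⟩
  rw [h2]
  apply div_mem
  · exact sub_mem hr (intCast_mem _ k)
  · exact intCast_mem _ N

lemma card_hull (W : Set T) : #(hull W) ≤ max #W ℵ₀ := by
  have h1 : #(hull W) ≤ #(Subfield.closure (rep '' W)) := by
    have : (hull W : Set T) = (fun r : ℝ => (r : T)) '' (Subfield.closure (rep '' W) : Set ℝ) := by
      ext t
      rw [SetLike.mem_coe, mem_hull]
      rfl
    have h2 : #((hull W : Set T)) ≤ #((Subfield.closure (rep '' W) : Set ℝ)) := by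
      rw [this]
      exact Cardinal.mk_image_le
    exact h2
  refine h1.trans (Subfield.cardinalMk_closure_le_max _ |>.trans ?_)
  exact max_le_max Cardinal.mk_image_le le_rfl

lemma card_T : #T = 𝔠 := by
  apply le_antisymm
  · refine (Cardinal.mk_le_of_surjective (QuotientAddGroup.mk_surjective)).trans ?_
    exact Cardinal.mk_real.le
  · have h : Function.Injective (fun r : Ico (0:ℝ) (0+1) => ((r : ℝ) : T)) := by
      haveI : Fact (0 < (1:ℝ)) := ⟨one_pos⟩
      exact (AddCircle.equivIco (1:ℝ) 0).symm.injective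
    have h2 := Cardinal.mk_le_of_injective h
    rwa [Cardinal.mk_Ico_real (by norm_num)] at h2

lemma exists_notMem_of_card {D : Set T} (hD : #D < 𝔠) : ∃ t, t ∉ D := by
  by_contra hcon
  push Not at hcon
  have : D = Set.univ := eq_univ_of_forall hcon
  rw [this, Cardinal.mk_univ, card_T] at hD
  exact lt_irrefl _ hD

/-- A proper subgroup does not contain a non-empty open set. -/
lemma exists_mem_open {D : AddSubgroup T} (hD : #D < 𝔠) {O : Set T} (hO : IsOpen O)
    (hne : O.Nonempty) : ∃ t ∈ O, t ∉ D := by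
  by_contra hcon
  push Not at hcon
  obtain ⟨t, ht⟩ := hne
  have hopen : IsOpen (D : Set T) :=
    AddSubgroup.isOpen_of_mem_nhds D (g := t) (mem_nhds_iff.2 ⟨O, hcon, hO, ht⟩)
  have hcl : IsClosed (D : Set T) := AddSubgroup.isClosed_of_isOpen D hopen
  have : (D : Set T) = Set.univ := IsClopen.eq_univ ⟨hcl, hopen⟩ ⟨0, D.zero_mem⟩
  obtain ⟨s, hs⟩ := exists_notMem_of_card (D := (D : Set T)) hD
  rw [this] at hs
  exact hs (mem_univ _)

lemma exists_smul_eq (n : ℤ) (hn : n ≠ 0) (t : T) : ∃ s : T, n • s = t := by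
  refine ⟨((rep t / n : ℝ) : T), ?_⟩
  have hN' : (n : ℝ) ≠ 0 := by exact_mod_cast hn
  have : n • ((rep t / n : ℝ) : T) = ((n • (rep t / n) : ℝ) : T) := rfl
  rw [this, zsmul_eq_mul, mul_div_cancel₀ _ hN', rep_spec]

/-- First avoidance lemma: hitting an arc. -/
lemma avoid_arc {D : AddSubgroup T} (hD : #D < 𝔠) (c s : T) {n : ℤ} (hn : n ≠ 0) {ε : ℝ}
    (hε : 0 < ε) : ∃ t, t ∉ D ∧ ‖c + n • t - s‖ < ε := by
  have hO : IsOpen {t : T | ‖c + n • t - s‖ < ε} :=
    isOpen_lt (by fun_prop) continuous_const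
  obtain ⟨t0, ht0⟩ := exists_smul_eq n hn (s - c)
  obtain ⟨t, ht, htD⟩ := exists_mem_open hD hO ⟨t0, by
    rw [mem_ofPred_eq, ht0]
    simpa using hε⟩
  exact ⟨t, htD, ht⟩

end hull

section cauchy

open MeasureTheory

/-- For non-zero integers `m k` there is a point `s` where `m k • s` does not tend to `0`. -/
lemma exists_not_tendsto (m : ℕ → ℤ) (hm : ∀ k, m k ≠ 0) :
    ∃ s : T, ¬ Tendsto (fun k => m k • s) atTop (𝓝 0) := by
  by_contra hcon
  push Not at hcon
  have hpt : ∀ s : T, Tendsto (fun k => (fourier (m k) s : ℂ)) atTop (𝓝 1) := by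
    intro s
    have h1 : Tendsto (fun k => AddCircle.toCircle (m k • s)) atTop (𝓝 (AddCircle.toCircle 0)) :=
      (AddCircle.continuous_toCircle.tendsto 0).comp (hcon s)
    have hc : Continuous (fun z : Circle => (z : ℂ)) := by fun_prop
    have h2 := (hc.tendsto _).comp h1
    simpa [fourier_apply, Function.comp_def] using h2
  have hint : ∀ k, ∫ s : T, (fourier (m k) s : ℂ) ∂AddCircle.haarAddCircle = 0 := by
    intro k
    have h := fourierCoeff_fourier (T := (1:ℝ)) (m k)
    have h0 := congrFun h 0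
    rw [Pi.single_eq_of_ne (fun h => hm k h.symm)] at h0
    simpa [fourierCoeff, -fourier_apply, fourier_zero] using h0
  have hlim : Tendsto (fun k => ∫ s : T, (fourier (m k) s : ℂ) ∂AddCircle.haarAddCircle) atTop
      (𝓝 (∫ _ : T, (1 : ℂ) ∂AddCircle.haarAddCircle)) := by
    apply tendsto_integral_of_dominated_convergence (fun _ => (1:ℝ))
    · intro k
      exact (fourier (m k)).continuous.aestronglyMeasurable
    · exact integrable_const _
    · intro k
      refine Eventually.of_forall fun s => ?_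
      rw [fourier_apply, Circle.norm_coe]
    · exact Eventually.of_forall hpt
  simp only [hint] at hlim
  have h0 := tendsto_nhds_unique hlim tendsto_const_nhds
  simp at h0

/-- Second avoidance lemma: making a sequence non-convergent. -/
lemma avoid_cauchy {D : AddSubgroup T} (hD : #D < 𝔠) (c : ℕ → T) (n : ℕ → ℤ)
    (hn : Function.Injective n) : ∃ t, t ∉ D ∧ ¬ CauchySeq (fun k => c k + n k • t) := by
  by_contra hcon
  push Not at hcon
  obtain ⟨s, hs⟩ := exists_not_tendsto (fun k => n (k + 1) - n k) (fun k h => by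
    have := hn (sub_eq_zero.1 h)
    omega)
  have hcard : #((D : Set T) ∪ (fun d => d - s) '' (D : Set T) : Set T) < 𝔠 := by
    refine (Cardinal.mk_union_le _ _).trans_lt ?_
    apply Cardinal.add_lt_of_lt Cardinal.aleph0_le_continuum hD
    exact Cardinal.mk_image_le.trans_lt hD
  obtain ⟨t0, ht0⟩ := exists_notMem_of_card hcard
  rw [mem_union, not_or] at ht0
  have h1 := hcon t0 ht0.1
  have h2 := hcon (t0 + s) (fun h => ht0.2 ⟨t0 + s, h, by simp⟩)
  obtain ⟨l1, hl1⟩ := cauchySeq_tendsto_of_complete h1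
  obtain ⟨l2, hl2⟩ := cauchySeq_tendsto_of_complete h2
  have h3 : Tendsto (fun k => n k • s) atTop (𝓝 (l2 - l1)) := by
    have := hl2.sub hl1
    refine this.congr fun k => ?_
    rw [zsmul_add]
    abel
  apply hs
  have h4 : Tendsto (fun k => n (k + 1) • s) atTop (𝓝 (l2 - l1)) := h3.comp (tendsto_add_atTop_nat 1)
  have h5 := h4.sub h3
  rw [sub_self] at h5
  refine h5.congr fun k => ?_
  rw [sub_smul]

end cauchy

end Pool.H432R3.ZG
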