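import Pool.Agent.H432R3.Z1

/-!
# Kronecker approximation on tori, by Weyl averages
-/

set_option autoImplicit false

namespace Pool.H432R3.ZG

open Set Cardinal Filter
open scoped Topology

section Weyl

variable {d : Type} [Fintype d]

/-- The averages used in the proof. -/
noncomputable def avg (z x : d → T) (f : C(d → T, ℂ)) (N : ℕ) : ℂ :=
  (∑ k ∈ Finset.range N, (f (k • z + x) - f (k • z))) / N

lemma avg_add (z x : d → T) (f g : C(d → T, ℂ)) (N : ℕ) :
    avg z x (f + g) N = avg z x f N + avg z x g N := by
  unfold avg
  rw [← add_div, ← Finset.sum_add_distrib]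
  congr 1
  apply Finset.sum_congr rfl
  intro k _
  simp only [ContinuousMap.add_apply]
  ring

lemma avg_smul (z x : d → T) (c : ℂ) (f : C(d → T, ℂ)) (N : ℕ) :
    avg z x (c • f) N = c * avg z x f N := by
  unfold avg
  rw [← mul_div_assoc, Finset.mul_sum]
  congr 1
  apply Finset.sum_congr rfl
  intro k _
  simp only [ContinuousMap.smul_apply, smul_eq_mul]
  ring

lemma avg_sub_norm (z x : d → T) (f g : C(d → T, ℂ)) (N : ℕ) :
    ‖avg z x f N - avg z x g N‖ ≤ 2 * ‖f - g‖ := by
  have h : avg z x f N - avg z x g N = avg z x (f - g) N := by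
    have := avg_add z x (f - g) g N
    rw [sub_add_cancel] at this
    rw [this]
    ring
  rw [h]
  unfold avg
  rw [norm_div, Complex.norm_natCast]
  rcases Nat.eq_zero_or_pos N with rfl | hN
  · simp
  have hN' : (0:ℝ) < N := by exact_mod_cast hN
  rw [div_le_iff₀ hN']
  refine (norm_sum_le _ _).trans ?_
  calc ∑ k ∈ Finset.range N, ‖(f - g) (k • z + x) - (f - g) (k • z)‖
      ≤ ∑ k ∈ Finset.range N, 2 * ‖f - g‖ := by
        apply Finset.sum_le_sum
        intro k _
        refine (norm_sub_le _ _).trans ?_
        have h1 := (f - g).norm_coe_le_norm (k • z + x)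
        have h2 := (f - g).norm_coe_le_norm (k • z)
        linarith
    _ = 2 * ‖f - g‖ * N := by
        simp
        ring

/-- The set of functions for which the averages tend to zero is everything. -/
lemma avg_tendsto (z x : d → T)
    (h : ∀ n : d → ℤ, ∑ i, n i • z i = 0 → ∑ i, n i • x i = 0) (f : C(d → T, ℂ)) :
    Tendsto (avg z x f) atTop (𝓝 0) := by
  -- characters
  have hchar : ∀ n : d → ℤ, Tendsto (avg z x (UnitAddTorus.mFourier n)) atTop (𝓝 0) := by
    intro n
    have hval : ∀ y : d → T, (UnitAddTorus.mFourier n) y
        = ((AddCircle.toCircle (∑ i, n i • y i) : Circle) : ℂ) := by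
      intro y
      simp only [UnitAddTorus.mFourier, ContinuousMap.coe_mk, fourier_apply]
      induction (Finset.univ : Finset d) using Finset.cons_induction with
      | empty => simp
      | cons a s ha ih =>
        rw [Finset.prod_cons, Finset.sum_cons, ih, AddCircle.toCircle_add]
        simp
    have hk : ∀ (k : ℕ) (y : d → T), ∑ i, n i • (k • z + y) i = k • (∑ i, n i • z i) + ∑ i, n i • y i := by
      intro k y
      rw [Finset.smul_sum, ← Finset.sum_add_distrib]
      apply Finset.sum_congr rfl
      intro i _
      simp only [Pi.add_apply, Pi.smul_apply, smul_add]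
      rw [smul_comm]
    have hk0 : ∀ (k : ℕ), ∑ i, n i • (k • z) i = k • (∑ i, n i • z i) := by
      intro k
      have := hk k 0
      simpa using this
    by_cases h0 : ∑ i, n i • z i = 0
    · have hx := h n h0
      have : avg z x (UnitAddTorus.mFourier n) = fun _ => 0 := by
        funext N
        unfold avg
        rw [Finset.sum_eq_zero]
        · simp
        · intro k _
          rw [hval, hval, hk, hk0, hx]
          simp
      rw [this]
      exact tendsto_const_nhds
    · set w : ℂ := ((AddCircle.toCircle (∑ i, n i • z i) : Circle) : ℂ) with hw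
      have hw1 : w ≠ 1 := by
        intro hcon
        apply h0
        apply AddCircle.injective_toCircle one_ne_zero
        rw [AddCircle.toCircle_zero]
        apply Subtype.ext
        simpa [hw] using hcon
      have hwn : ‖w‖ = 1 := by
        rw [hw]
        exact Circle.norm_coe _
      set u : ℂ := ((AddCircle.toCircle (∑ i, n i • x i) : Circle) : ℂ) with hu
      have hun : ‖u‖ = 1 := by
        rw [hu]
        exact Circle.norm_coe _
      have hnsmul : ∀ (k : ℕ) (t : T), ((AddCircle.toCircle (k • t) : Circle) : ℂ)
          = ((AddCircle.toCircle t : Circle) : ℂ) ^ k := by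
        intro k t
        induction k with
        | zero => simp
        | succ k ih =>
          rw [succ_nsmul, AddCircle.toCircle_add, pow_succ]
          push_cast
          rw [ih]
      have havg : ∀ N : ℕ, avg z x (UnitAddTorus.mFourier n) N = (w ^ N - 1) / (w - 1) * (u - 1) / N := by
        intro N
        unfold avg
        congr 1
        rw [← geom_sum_eq hw1, Finset.sum_mul]
        apply Finset.sum_congr rfl
        intro k _
        rw [hval, hval, hk, hk0, AddCircle.toCircle_add]
        push_cast
        rw [hnsmul, ← hw, ← hu]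
        ring
      have hbound : ∀ N : ℕ, ‖avg z x (UnitAddTorus.mFourier n) N‖ ≤ (2 / ‖w - 1‖ * 2) / N := by
        intro N
        rw [havg, norm_div, norm_mul, norm_div, Complex.norm_natCast]
        have h1 : ‖w ^ N - 1‖ ≤ 2 := by
          refine (norm_sub_le _ _).trans ?_
          rw [norm_pow, hwn]
          norm_num
        have h2 : ‖u - 1‖ ≤ 2 := by
          refine (norm_sub_le _ _).trans ?_
          rw [hun]
          norm_num
        gcongr
      apply squeeze_zero_norm hbound
      exact tendsto_const_div_atTop_nhds_zero_nat _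
  -- the closed subspace
  let S : Submodule ℂ C(d → T, ℂ) :=
    { carrier := {f | Tendsto (avg z x f) atTop (𝓝 0)}
      add_mem' := by
        intro f g hf hg
        have := Tendsto.add hf hg
        rw [add_zero] at this
        refine this.congr fun N => (avg_add z x f g N).symm
      zero_mem' := by
        have : avg z x 0 = fun _ => 0 := by
          funext N
          simp [avg]
        change Tendsto (avg z x 0) atTop (𝓝 0)
        rw [this]
        exact tendsto_const_nhds
      smul_mem' := by
        intro c f hf
        have := Tendsto.const_mul c hf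
        rw [mul_zero] at this
        refine this.congr fun N => (avg_smul z x c f N).symm }
  have hclosed : IsClosed (S : Set C(d → T, ℂ)) := by
    rw [← isSeqClosed_iff_isClosed]
    intro u f hu huf
    change Tendsto (avg z x f) atTop (𝓝 0)
    rw [Metric.tendsto_atTop]
    intro ε hε
    rw [Metric.tendsto_atTop] at huf
    obtain ⟨m, hm⟩ := huf (ε / 8) (by positivity)
    have hm' := hm m le_rfl
    rw [dist_eq_norm] at hm'
    have h1 : Tendsto (avg z x (u m)) atTop (𝓝 0) := hu m
    rw [Metric.tendsto_atTop] at h1
    obtain ⟨N, hN⟩ := h1 (ε / 2) (by positivity)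
    refine ⟨N, fun n hn => ?_⟩
    have h2 := hN n hn
    rw [dist_zero_right] at h2 ⊢
    have h3 := avg_sub_norm z x f (u m) n
    have h4 : ‖f - u m‖ < ε / 8 := by rw [← norm_neg, neg_sub]; exact hm'
    calc ‖avg z x f n‖ = ‖(avg z x f n - avg z x (u m) n) + avg z x (u m) n‖ := by ring_nf
      _ ≤ ‖avg z x f n - avg z x (u m) n‖ + ‖avg z x (u m) n‖ := norm_add_le _ _
      _ < ε := by linarith
  have htop : (⊤ : Submodule ℂ C(d → T, ℂ)) ≤ S := by
    rw [← UnitAddTorus.span_mFourier_closure_eq_top]
    apply Submodule.topologicalClosure_minimal _ _ hclosed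
    rw [Submodule.span_le]
    rintro _ ⟨n, rfl⟩
    exact hchar n
  exact htop (Submodule.mem_top : f ∈ ⊤)

/-- Kronecker's theorem on finite-dimensional tori. -/
lemma kronecker_fin (z x : d → T)
    (h : ∀ n : d → ℤ, ∑ i, n i • z i = 0 → ∑ i, n i • x i = 0) :
    x ∈ (AddSubgroup.zmultiples z).topologicalClosure := by
  by_contra hx
  set H := (AddSubgroup.zmultiples z).topologicalClosure with hH
  have hHc : IsClosed (H : Set (d → T)) := AddSubgroup.isClosed_topologicalClosure _
  have hxH : IsClosed ((fun y => y - x) ⁻¹' (H : Set (d → T))) := hHc.preimage (by fun_prop)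
  have hdisj : Disjoint (H : Set (d → T)) ((fun y => y - x) ⁻¹' (H : Set (d → T))) := by
    rw [Set.disjoint_left]
    intro y hy hy2
    apply hx
    have h1 : y - x ∈ H := hy2
    have := H.sub_mem hy h1
    simpa using this
  obtain ⟨f, hf0, hf1, hf2⟩ := exists_continuous_zero_one_of_isClosed hHc hxH hdisj
  let g : C(d → T, ℂ) := ⟨fun y => (f y : ℂ), by fun_prop⟩
  have hg := avg_tendsto z x h g
  have hmem : ∀ k : ℕ, k • z ∈ H := fun k =>
    AddSubgroup.le_topologicalClosure _ (AddSubgroup.nsmul_mem _ (AddSubgroup.mem_zmultiples z) k)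
  have havg : ∀ N : ℕ, 0 < N → avg z x g N = 1 := by
    intro N hN
    unfold avg
    have : ∀ k ∈ Finset.range N, g (k • z + x) - g (k • z) = 1 := by
      intro k _
      have h1 : f (k • z) = 0 := hf0 (hmem k)
      have h2 : f (k • z + x) = 1 := hf1 (by
        change k • z + x - x ∈ H
        rw [add_sub_cancel_right]
        exact hmem k)
      change (f (k • z + x) : ℂ) - (f (k • z) : ℂ) = 1
      rw [h1, h2]
      simp
    rw [Finset.sum_congr rfl this]
    simp only [Finset.sum_const, Finset.card_range, nsmul_eq_mul, mul_one]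
    have : (N : ℂ) ≠ 0 := by exact_mod_cast hN.ne'
    field_simp
  have h1 : Tendsto (avg z x g) atTop (𝓝 1) := by
    apply tendsto_const_nhds.congr'
    filter_upwards [eventually_gt_atTop 0] with N hN
    exact (havg N hN).symm
  exact one_ne_zero (tendsto_nhds_unique h1 hg)

end Weyl

/-- Kronecker's theorem on arbitrary tori, in approximation form. -/
lemma kronecker {J : Type} (z x : J → T) (h : ∀ c : J →₀ ℤ, lc z c = 0 → lc x c = 0)
    (F : Finset J) {ε : ℝ} (hε : 0 < ε) : ∃ k : ℤ, ∀ i ∈ F, ‖k • z i - x i‖ < ε := by
  classical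
  have h1 := kronecker_fin (d := F) (fun i => z i) (fun i => x i) (by
    intro n hn
    let c : J →₀ ℤ := ∑ i : F, Finsupp.single (i : J) (n i)
    have hc : ∀ y : J → T, lc y c = ∑ i : F, n i • y i := by
      intro y
      have : lc y c = lcHom y c := rfl
      rw [this, map_sum]
      apply Finset.sum_congr rfl
      intro i _
      exact lc_single y i (n i)
    rw [← hc] at hn
    rw [← hc]
    exact h c hn)
  have h2 : (fun i : F => x i) ∈ closure ((AddSubgroup.zmultiples (fun i : F => z i) : AddSubgroup (F → T)) : Set (F → T)) := h1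
  rw [Metric.mem_closure_iff] at h2
  obtain ⟨y, hy, hy2⟩ := h2 ε hε
  obtain ⟨k, rfl⟩ := AddSubgroup.mem_zmultiples_iff.1 hy
  refine ⟨k, fun i hi => ?_⟩
  rw [dist_pi_lt_iff hε] at hy2
  have := hy2 ⟨i, hi⟩
  rw [dist_comm, dist_eq_norm] at this
  simpa using this

end Pool.H432R3.ZG
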