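import Pool.Agent.H432R3.Z2

/-!
# One step of the transfinite construction
-/

set_option autoImplicit false

namespace Pool.H432R3.ZG

open Set Cardinal Filter
open scoped Topology

section rec

variable {I A : Type} [LinearOrder I]

open Classical in
/-- Cut a function at `α`. -/
noncomputable def cut (a0 : A) (α : I) (v : I → A) : I → A := fun δ => if δ < α then v δ else a0

lemma cut_of_lt (a0 : A) {α δ : I} (v : I → A) (h : δ < α) : cut a0 α v δ = v δ := by
  unfold cut
  rw [if_pos h]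

/-- Transfinite recursion in the form of an existence statement. -/
lemma exists_rec [WellFoundedLT I] (a0 : A) (P : I → (I → A) → A → Prop) (h : ∀ α p, ∃ u, P α p u) :
    ∃ v : I → A, ∀ α, P α (cut a0 α v) (v α) := by
  classical
  have wf : WellFounded ((· < ·) : I → I → Prop) := wellFounded_lt
  let F : (x : I) → ((y : I) → y < x → A) → A := fun α ih =>
    Classical.choose (h α (fun δ => if hδ : δ < α then ih δ hδ else a0))
  let v : I → A := wf.fix F
  refine ⟨v, fun α => ?_⟩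
  have h1 : v α = Classical.choose (h α (fun δ => if hδ : δ < α then v δ else a0)) := by
    change wf.fix F α = _
    rw [WellFounded.fix_eq]
  have h2 : (fun δ => if hδ : δ < α then v δ else a0) = cut a0 α v := by
    funext δ
    unfold cut
    by_cases hδ : δ < α
    · simp [hδ]
    · simp [hδ]
  rw [h2] at h1
  rw [h1]
  exact Classical.choose_spec (h α (cut a0 α v))

end rec

section step

variable {I : Type} [LinearOrder I]

/-- The coordinates of the element with name `g`. -/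
noncomputable def ev (v : I → I → T) (g : I →₀ ℤ) : I → T := fun β => lc (fun δ => v δ β) g

lemma ev_add (v : I → I → T) (g h : I →₀ ℤ) : ev v (g + h) = ev v g + ev v h := by
  funext β
  exact lc_add_right _ g h

lemma ev_zero (v : I → I → T) : ev v 0 = 0 := by
  funext β
  exact lc_zero_right _

lemma ev_sub (v : I → I → T) (g h : I →₀ ℤ) : ev v (g - h) = ev v g - ev v h := by
  funext β
  exact lc_sub_right _ g h

lemma ev_smul (v : I → I → T) (n : ℤ) (g : I →₀ ℤ) : ev v (n • g) = n • ev v g := by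
  funext β
  exact lc_smul_right _ n g

lemma ev_single (v : I → I → T) (α : I) (n : ℤ) : ev v (Finsupp.single α n) = n • v α := by
  funext β
  exact lc_single _ α n

lemma ev_congr {v w : I → I → T} {g : I →₀ ℤ} (h : ∀ δ ∈ g.support, v δ = w δ) :
    ev v g = ev w g := by
  funext β
  exact lc_congr fun δ hδ => by rw [h δ hδ]

lemma ev_cut (v : I → I → T) {α : I} {g : I →₀ ℤ} (h : ∀ δ ∈ g.support, δ < α) :
    ev (cut 0 α v) g = ev v g :=
  ev_congr fun δ hδ => cut_of_lt 0 v (h δ hδ)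

/-- Type I sequences: strictly increasing maxima of the supports. -/
def TypeI (S : ℕ → I →₀ ℤ) : Prop :=
  ∃ μ : ℕ → I, StrictMono μ ∧ ∀ k, (∀ δ, μ k < δ → S k δ = 0) ∧ S k (μ k) ≠ 0

/-- Centres of the arcs. -/
noncomputable def arc (k : ℕ) : T := if Even k then 0 else ((1 / 2 : ℝ) : T)

open Classical in
/-- The promise for the coordinate `β` at stage `α`. -/
def Pr (S : ℕ → I →₀ ℤ) (p : I → I → T) (α β : I) (t : T) : Prop :=
  (TypeI S → ∀ k, (∀ δ, α < δ → S k δ = 0) → S k α ≠ 0 →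
    ‖ev p ((S k).erase α) β + (S k α) • t - arc k‖ < 1 / 8) ∧
  (¬ TypeI S → (∀ k, ∀ δ, α < δ → S k δ = 0) → Function.Injective (fun k => S k α) →
    ¬ CauchySeq (fun k => ev p ((S k).erase α) β + (S k α) • t))

lemma exists_Pr {D : AddSubgroup T} (hD : #D < 𝔠) (S : ℕ → I →₀ ℤ) (p : I → I → T) (α β : I) :
    ∃ t, t ∉ D ∧ Pr S p α β t := by
  classical
  by_cases h1 : TypeI S
  · obtain ⟨μ, hμ, hμ2⟩ := h1
    by_cases h2 : ∃ k, (∀ δ, α < δ → S k δ = 0) ∧ S k α ≠ 0
    · obtain ⟨k, hk1, hk2⟩ := h2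
      have huniq : ∀ k', (∀ δ, α < δ → S k' δ = 0) → S k' α ≠ 0 → μ k' = α := by
        intro k' h1 h2
        rcases lt_trichotomy (μ k') α with h | h | h
        · exact absurd ((hμ2 k').1 α h) h2
        · exact h
        · exact absurd (h1 _ h) (hμ2 k').2
      obtain ⟨t, htD, ht⟩ := avoid_arc hD (ev p ((S k).erase α) β) (arc k) hk2 (ε := 1 / 8) (by norm_num)
      refine ⟨t, htD, ?_, ?_⟩
      · intro _ k' h1 h2
        have : k' = k := hμ.injective ((huniq k' h1 h2).trans (huniq k hk1 hk2).symm)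
        subst this
        exact ht
      · intro h
        exact absurd ⟨μ, hμ, hμ2⟩ h
    · obtain ⟨t, ht⟩ := exists_notMem_of_card (D := (D : Set T)) hD
      refine ⟨t, ht, ?_, ?_⟩
      · intro _ k h3 h4
        exact absurd ⟨k, h3, h4⟩ h2
      · intro h
        exact absurd ⟨μ, hμ, hμ2⟩ h
  · by_cases h2 : (∀ k, ∀ δ, α < δ → S k δ = 0) ∧ Function.Injective (fun k => S k α)
    · obtain ⟨t, htD, ht⟩ := avoid_cauchy hD (fun k => ev p ((S k).erase α) β) (fun k => S k α) h2.2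
      exact ⟨t, htD, fun h => absurd h h1, fun _ _ _ => ht⟩
    · obtain ⟨t, ht⟩ := exists_notMem_of_card (D := (D : Set T)) hD
      exact ⟨t, ht, fun h => absurd h h1, fun _ h3 h4 => absurd ⟨h3, h4⟩ h2⟩

/-- The values already used when `u β` is chosen. -/
def used (α β : I) (E : Set I) (p : I → I → T) (m q : I → T) : Set T :=
  (fun x : I × I => p x.1 x.2) '' (Iio α ×ˢ (E ∪ Iic β)) ∪ m '' E ∪ q '' (Iio β)

lemma card_used (hI : ∀ i : I, #(Iic i) < 𝔠) (α β : I) {E : Set I} (hE : E.Countable)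
    (p : I → I → T) (m q : I → T) : #(used α β E p m q) < 𝔠 := by
  have hIio : ∀ i : I, #(Iio i) < 𝔠 := fun i =>
    (Cardinal.mk_le_mk_of_subset Iio_subset_Iic_self).trans_lt (hI i)
  have hEc : #E < 𝔠 := hE.le_aleph0.trans_lt Cardinal.aleph0_lt_continuum
  have hadd : ∀ a b : Cardinal, a < 𝔠 → b < 𝔠 → a + b < 𝔠 := fun a b ha hb =>
    Cardinal.add_lt_of_lt Cardinal.aleph0_le_continuum ha hb
  have h1 : #((E ∪ Iic β : Set I)) < 𝔠 := (Cardinal.mk_union_le _ _).trans_lt (hadd _ _ hEc (hI β))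
  have h2 : #((Iio α ×ˢ (E ∪ Iic β) : Set (I × I))) < 𝔠 := by
    rw [Cardinal.mk_setProd]
    exact Cardinal.mul_lt_of_lt Cardinal.aleph0_le_continuum (hIio α) h1
  unfold used
  refine (Cardinal.mk_union_le _ _).trans_lt (hadd _ _ ((Cardinal.mk_union_le _ _).trans_lt (hadd _ _ ?_ ?_)) ?_)
  · exact Cardinal.mk_image_le.trans_lt h2
  · exact Cardinal.mk_image_le.trans_lt hEc
  · exact Cardinal.mk_image_le.trans_lt (hIio β)

lemma card_hull_used (hI : ∀ i : I, #(Iic i) < 𝔠) (α β : I) {E : Set I} (hE : E.Countable)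
    (p : I → I → T) (m q : I → T) : #(hull (used α β E p m q)) < 𝔠 :=
  (card_hull _).trans_lt (max_lt (card_used hI α β hE p m q) Cardinal.aleph0_lt_continuum)

/-- Independence outside `E`. -/
def Indep (α : I) (p : I → I → T) (u : I → T) (E : Set I) : Prop :=
  ∀ h : I →₀ ℤ, (∀ δ ∈ h.support, δ < α) → ∀ n : ℤ, n ≠ 0 → ∀ c : I →₀ ℤ,
    lc (ev p h + n • u) c = 0 → ∀ γ ∈ c.support, γ ∈ E

lemma exists_generic [WellFoundedLT I] (hI : ∀ i : I, #(Iic i) < 𝔠) (S : I → ℕ → I →₀ ℤ) (α : I)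
    (p : I → I → T) {E : Set I} (hE : E.Countable) (m : I → T) :
    ∃ u : I → T, (∀ β ∈ E, u β = m β) ∧ Indep α p u E ∧ ∀ β, β ∉ E → Pr (S β) p α β (u β) := by
  classical
  obtain ⟨u, hu⟩ := exists_rec (I := I) (0 : T)
    (fun β q t => (β ∈ E → t = m β) ∧
      (β ∉ E → t ∉ hull (used α β E p m q) ∧ Pr (S β) p α β t)) (by
      intro β q
      by_cases hβ : β ∈ E
      · exact ⟨m β, fun _ => rfl, fun h => absurd hβ h⟩
      · obtain ⟨t, ht, ht2⟩ := exists_Pr (card_hull_used hI α β hE p m q) (S β) p α β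
        exact ⟨t, fun h => absurd h hβ, fun _ => ⟨ht, ht2⟩⟩)
  refine ⟨u, fun β hβ => (hu β).1 hβ, ?_, fun β hβ => ((hu β).2 hβ).2⟩
  intro h hh n hn c hc
  by_contra hcon
  push Not at hcon
  obtain ⟨γ0, hγ0, hγ0E⟩ := hcon
  -- the largest bad coordinate
  have hne : (c.support.filter (fun γ => γ ∉ E)).Nonempty :=
    ⟨γ0, Finset.mem_filter.2 ⟨hγ0, hγ0E⟩⟩
  set β := (c.support.filter (fun γ => γ ∉ E)).max' hne with hβdef
  have hβmem := Finset.max'_mem _ hne
  rw [← hβdef, Finset.mem_filter] at hβmem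
  obtain ⟨hβc, hβE⟩ := hβmem
  have hsup : ∀ γ ∈ c.support, γ ≠ β → γ ∈ E ∨ γ < β := by
    intro γ hγ hγβ
    by_cases hγE : γ ∈ E
    · exact Or.inl hγE
    · right
      exact lt_of_le_of_ne (Finset.le_max' _ _ (Finset.mem_filter.2 ⟨hγ, hγE⟩)) hγβ
  set D := hull (used α β E p m (cut 0 β u)) with hD
  have hpD : ∀ δ < α, ∀ γ, (γ ∈ E ∨ γ ≤ β) → p δ γ ∈ D := by
    intro δ hδ γ hγ
    apply subset_hull
    left; left
    exact ⟨(δ, γ), ⟨hδ, hγ⟩, rfl⟩
  have hevD : ∀ γ, (γ ∈ E ∨ γ ≤ β) → ev p h γ ∈ D := by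
    intro γ hγ
    exact lc_mem fun δ hδ => hpD δ (hh δ hδ) γ hγ
  have huD : ∀ γ, (γ ∈ E ∨ γ < β) → u γ ∈ D := by
    intro γ hγ
    by_cases hγE : γ ∈ E
    · rw [(hu γ).1 hγE]
      apply subset_hull
      left; right
      exact mem_image_of_mem _ hγE
    · have hlt : γ < β := hγ.resolve_left hγE
      apply subset_hull
      right
      exact ⟨γ, hlt, cut_of_lt 0 u hlt⟩
  -- split off the coordinate β
  have hsplit : c = Finsupp.single β (c β) + c.erase β := (Finsupp.single_add_erase β c).symm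
  rw [hsplit, lc_add_right, lc_single] at hc
  have hrest : lc (ev p h + n • u) (c.erase β) ∈ D := by
    apply lc_mem
    intro γ hγ
    rw [Finsupp.support_erase, Finset.mem_erase] at hγ
    have h1 := hsup γ hγ.2 hγ.1
    simp only [Pi.add_apply, Pi.smul_apply]
    exact D.add_mem (hevD γ (h1.imp id le_of_lt)) (D.zsmul_mem (huD γ h1) n)
  have h2 : (c β) • (ev p h + n • u) β ∈ D := by
    have : (c β) • (ev p h + n • u) β = - lc (ev p h + n • u) (c.erase β) :=
      eq_neg_of_add_eq_zero_left hc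
    rw [this]
    exact D.neg_mem hrest
  have h3 : (c β) • (n • u β) ∈ D := by
    have : (c β) • (n • u β) = (c β) • (ev p h + n • u) β - (c β) • ev p h β := by
      simp only [Pi.add_apply, Pi.smul_apply, smul_add]
      abel
    rw [this]
    exact D.sub_mem h2 (D.zsmul_mem (hevD β (Or.inr le_rfl)) _)
  have h4 : u β ∈ D := by
    have hcβ : c β ≠ 0 := Finsupp.mem_support_iff.1 hβc
    exact hull_div hn (hull_div hcβ h3)
  exact ((hu β).2 hβE).1 h4

/-- A task: an element, a sequence of coordinates and prescribed values. -/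
abbrev Task (I : Type) := (I →₀ ℤ) × (ℕ → I) × (ℕ → T)

/-- Membership of `m` in the closed subgroup belonging to `g` (everything for `g = 0`). -/
def InM (p : I → I → T) (g : I →₀ ℤ) (m : I → T) : Prop :=
  g = 0 ∨ ∀ c, lc (ev p g) c = 0 → lc m c = 0

/-- All relations of `g` are supported in `E`. -/
def Rel (p : I → I → T) (g : I →₀ ℤ) (E : Set I) : Prop :=
  g = 0 ∨ ∀ c, lc (ev p g) c = 0 → ∀ γ ∈ c.support, γ ∈ E

/-- What has to be achieved at stage `α`. -/
def Step (S : I → ℕ → I →₀ ℤ) (τ : I → Task I) (α : I) (p : I → I → T) (u : I → T) : Prop :=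
  ∃ E : Set I, E.Countable ∧ Indep α p u E ∧ (∀ β, β ∉ E → Pr (S β) p α β (u β)) ∧
    ((∃ E0 : Set I, E0.Countable ∧ Rel p (τ α).1 E0) →
      (∃ m, InM p (τ α).1 m ∧ ∀ n, m ((τ α).2.1 n) = (τ α).2.2 n) →
      InM p (τ α).1 u ∧ ∀ n, u ((τ α).2.1 n) = (τ α).2.2 n)

lemma exists_step [WellFoundedLT I] (hI : ∀ i : I, #(Iic i) < 𝔠) (S : I → ℕ → I →₀ ℤ)
    (τ : I → Task I) (α : I) (p : I → I → T) : ∃ u, Step S τ α p u := by
  classical
  by_cases hval : (∃ E0 : Set I, E0.Countable ∧ Rel p (τ α).1 E0) ∧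
      (∃ m, InM p (τ α).1 m ∧ ∀ n, m ((τ α).2.1 n) = (τ α).2.2 n)
  · obtain ⟨⟨E0, hE0, hrel⟩, m, hm, hm2⟩ := hval
    have hE : (E0 ∪ range (τ α).2.1).Countable := hE0.union (countable_range _)
    obtain ⟨u, hu1, hu2, hu3⟩ := exists_generic hI S α p hE m
    refine ⟨u, _, hE, hu2, hu3, fun _ _ => ⟨?_, ?_⟩⟩
    · rcases hm with h | h
      · exact Or.inl h
      · rcases hrel with h' | h'
        · exact Or.inl h'
        · right
          intro c hc
          rw [← h c hc]
          exact lc_congr fun γ hγ => hu1 γ (Or.inl (h' c hc γ hγ))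
    · intro n
      rw [← hm2 n]
      exact hu1 _ (Or.inr (mem_range_self n))
  · obtain ⟨u, hu1, hu2, hu3⟩ := exists_generic hI S α p countable_empty 0
    exact ⟨u, ∅, countable_empty, hu2, hu3, fun h1 h2 => absurd ⟨h1, h2⟩ hval⟩

end step

end Pool.H432R3.ZG
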