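import Pool.Agent.H432R3.Z3

/-!
# Bookkeeping, the matrix, and the reduction of sequences
-/

set_option autoImplicit false

namespace Pool.H432R3.ZG

open Set Cardinal Filter
open scoped Topology

section subseq

/-- Every sequence in a linear order has a strictly increasing, strictly decreasing or constant
subsequence. -/
lemma tri_subseq {A : Type} [LinearOrder A] (f : ℕ → A) : ∃ g : ℕ → ℕ, StrictMono g ∧
    ((∀ m n, m < n → f (g m) < f (g n)) ∨ (∀ m n, m < n → f (g n) < f (g m)) ∨
      ∀ n, f (g n) = f (g 0)) := by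
  obtain ⟨g, hg⟩ := exists_increasing_or_nonincreasing_subseq (· < ·) f
  rcases hg with hg | hg
  · exact ⟨g, g.strictMono, Or.inl hg⟩
  · obtain ⟨g', hg'⟩ := exists_increasing_or_nonincreasing_subseq (· > ·) (f ∘ g)
    refine ⟨g ∘ g', g.strictMono.comp g'.strictMono, ?_⟩
    rcases hg' with hg' | hg'
    · exact Or.inr (Or.inl hg')
    · right; right
      intro n
      rcases Nat.eq_zero_or_pos n with rfl | hn
      · rfl
      · have h1 := hg (g' 0) (g' n) (g'.strictMono hn)
        have h2 := hg' 0 n hn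
        simp only [Function.comp_apply, gt_iff_lt] at h2 ⊢
        exact le_antisymm (not_lt.1 h1) (not_lt.1 h2)

variable {I : Type} [LinearOrder I]

/-- Type II sequences. -/
def TypeII (S : ℕ → I →₀ ℤ) : Prop :=
  ∃ μ, (∀ k, ∀ δ, μ < δ → S k δ = 0) ∧ Function.Injective (fun k => S k μ)

/-- Some subsequence, up to a constant, is of type I or II. -/
def Concl (u : ℕ → I →₀ ℤ) : Prop :=
  ∃ φ : ℕ → ℕ, StrictMono φ ∧ ∃ c, (TypeI (fun k => u (φ k) - c) ∨ TypeII (fun k => u (φ k) - c))

lemma split_max [WellFoundedLT I] (w : ℕ → I →₀ ℤ) (hw : Function.Injective w) :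
    ∃ g : ℕ → ℕ, StrictMono g ∧ (TypeI (fun k => w (g k)) ∨
      ∃ ν, ∀ k, (∀ δ, ν < δ → w (g k) δ = 0) ∧ w (g k) ν ≠ 0) := by
  classical
  obtain ⟨g, hg, h⟩ := tri_subseq (fun k => (w k).support.max)
  have hmax : ∀ k (ν : I), (w k).support.max = (ν : WithBot I) → (∀ δ, ν < δ → w k δ = 0) ∧ w k ν ≠ 0 := by
    intro k ν hν
    constructor
    · intro δ hδ
      by_contra hne
      have := Finset.le_max (Finsupp.mem_support_iff.2 hne)
      rw [hν] at this
      exact absurd (WithBot.coe_le_coe.1 this) (not_le.2 hδ)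
    · exact Finsupp.mem_support_iff.1 (Finset.mem_of_max hν)
  rcases h with h | h | h
  · refine ⟨fun k => g (k + 1), fun a b hab => hg (by omega), Or.inl ?_⟩
    have hne : ∀ k, ∃ ν : I, (w (g (k + 1))).support.max = (ν : WithBot I) := by
      intro k
      have := h k (k + 1) (by omega)
      cases hx : (w (g (k + 1))).support.max with
      | bot =>
        rw [hx] at this
        exact absurd this (not_lt_bot)
      | coe ν => exact ⟨ν, rfl⟩
    choose μ hμ using hne
    refine ⟨μ, ?_, fun k => hmax _ _ (hμ k)⟩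
    intro a b hab
    have := h (a + 1) (b + 1) (by omega)
    rw [hμ a, hμ b] at this
    exact WithBot.coe_lt_coe.1 this
  · exfalso
    have wf : WellFounded ((· < ·) : WithBot I → WithBot I → Prop) := wellFounded_lt
    have hmin := wf.has_min (range fun n => (w (g n)).support.max) (range_nonempty _)
    obtain ⟨_, ⟨n, rfl⟩, hn⟩ := hmin
    exact hn _ ⟨n + 1, rfl⟩ (h n (n + 1) (by omega))
  · cases hx : (w (g 0)).support.max with
    | bot =>
      exfalso
      have h0 : w (g 0) = 0 := by
        rw [Finset.max_eq_bot, Finsupp.support_eq_empty] at hx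
        exact hx
      have h1 : w (g 1) = 0 := by
        have := h 1
        rw [hx, Finset.max_eq_bot, Finsupp.support_eq_empty] at this
        exact this
      have := hg.injective (hw (h0.trans h1.symm))
      omega
    | coe ν =>
      refine ⟨g, hg, Or.inr ⟨ν, fun k => hmax _ _ ?_⟩⟩
      rw [h k, hx]

lemma red [WellFoundedLT I] (μ : I) : ∀ u : ℕ → I →₀ ℤ, Function.Injective u →
    (∀ k, ∀ δ, μ < δ → u k δ = 0) → Concl u := by
  induction μ using WellFoundedLT.induction with
  | ind μ ih =>
    intro u hu hμ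
    obtain ⟨g, hg, h⟩ := tri_subseq (fun k => u k μ)
    have hinj : (∀ m n, m < n → u (g m) μ < u (g n) μ) ∨ (∀ m n, m < n → u (g n) μ < u (g m) μ) →
        Concl u := by
      intro h
      refine ⟨g, hg, 0, Or.inr ⟨μ, ?_, ?_⟩⟩
      · intro k δ hδ
        simp [hμ (g k) δ hδ]
      · intro a b hab
        simp only [sub_zero] at hab
        rcases lt_trichotomy a b with hlt | hlt | hlt
        · rcases h with h | h
          · have := h a b hlt
            omega
          · have := h a b hlt
            omega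
        · exact hlt
        · rcases h with h | h
          · have := h b a hlt
            omega
          · have := h b a hlt
            omega
    rcases h with h | h | h
    · exact hinj (Or.inl h)
    · exact hinj (Or.inr h)
    · set c0 := Finsupp.single μ (u (g 0) μ) with hc0
      set w : ℕ → I →₀ ℤ := fun k => u (g k) - c0 with hw
      have hwinj : Function.Injective w := by
        intro a b hab
        have : u (g a) = u (g b) := sub_left_injective hab
        exact hg.injective (hu this)
      have hwμ : ∀ k δ, μ ≤ δ → w k δ = 0 := by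
        intro k δ hδ
        rcases hδ.lt_or_eq with h1 | h1
        · simp only [hw, hc0, Finsupp.sub_apply]
          rw [hμ (g k) δ h1, Finsupp.single_eq_of_ne (by exact h1.ne'), sub_zero]
        · subst h1
          simp only [hw, hc0, Finsupp.sub_apply, Finsupp.single_eq_same]
          rw [h k, sub_self]
      obtain ⟨g', hg', h'⟩ := split_max w hwinj
      rcases h' with h' | ⟨ν, hν⟩
      · exact ⟨g ∘ g', hg.comp hg', c0, Or.inl h'⟩
      · have hlt : ν < μ := by
          by_contra hcon
          exact (hν 0).2 (hwμ _ _ (not_lt.1 hcon))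
        obtain ⟨φ, hφ, c, hc⟩ := ih ν hlt (w ∘ g') (hwinj.comp hg'.injective) (fun k => (hν k).1)
        refine ⟨g ∘ g' ∘ φ, hg.comp (hg'.comp hφ), c0 + c, ?_⟩
        have heq : (fun k => u ((g ∘ g' ∘ φ) k) - (c0 + c)) = fun k => (w ∘ g') (φ k) - c := by
          funext k
          simp only [hw, Function.comp_apply]
          abel
        rw [heq]
        exact hc

lemma concl_of_injective [WellFoundedLT I] (u : ℕ → I →₀ ℤ) (hu : Function.Injective u) :
    Concl u := by
  obtain ⟨g, hg, h⟩ := split_max u hu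
  rcases h with h | ⟨ν, hν⟩
  · refine ⟨g, hg, 0, Or.inl ?_⟩
    simpa using h
  · obtain ⟨φ, hφ, c, hc⟩ := red ν (u ∘ g) (hu.comp hg.injective) (fun k => (hν k).1)
    exact ⟨g ∘ φ, hg.comp hφ, c, hc⟩

end subseq

section book

variable {I : Type}

/-- Bookkeeping function with large fibres. -/
lemma book (hc : #I = 𝔠) {B : Type} [Nonempty B] (hB : #B ≤ 𝔠) :
    ∃ f : I → B, ∀ b, ∀ s : Set I, #s < 𝔠 → ∃ i, i ∉ s ∧ f i = b := by
  have h1 : #(I × B) = #I := by
    rw [Cardinal.mk_prod]
    simp only [Cardinal.lift_id]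
    rw [hc]
    exact Cardinal.mul_eq_left Cardinal.aleph0_le_continuum hB (Cardinal.mk_ne_zero B)
  obtain ⟨e⟩ := Cardinal.eq.1 h1
  refine ⟨fun i => (e.symm i).2, fun b s hs => ?_⟩
  by_contra hcon
  push Not at hcon
  have hmem : ∀ i : I, e (i, b) ∈ s := by
    intro i
    by_contra hi
    exact hcon _ hi (by simp)
  have : #I ≤ #s := by
    refine Cardinal.mk_le_of_injective (f := fun i => (⟨e (i, b), hmem i⟩ : s)) ?_
    intro i j hij
    have := e.injective (congrArg Subtype.val hij)
    exact (Prod.mk.inj this).1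
  rw [hc] at this
  exact absurd hs (not_lt.2 this)

lemma card_seq {B : Type} (hB : #B = 𝔠) : #(ℕ → B) = 𝔠 := by
  have : #(ℕ → B) = #B ^ #ℕ := by simp
  rw [this, hB]
  simp

lemma card_finsupp (hc : #I = 𝔠) : #(I →₀ ℤ) = 𝔠 := by
  haveI : Infinite I := by
    rw [Cardinal.infinite_iff, hc]
    exact Cardinal.aleph0_le_continuum
  rw [Cardinal.mk_finsupp_of_infinite, hc]
  simpa using Cardinal.aleph0_le_continuum

lemma card_task (hc : #I = 𝔠) : #(Task I) = 𝔠 := by
  have h1 : #((ℕ → I) × (ℕ → T)) = 𝔠 := by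
    rw [Cardinal.mk_prod]
    simp only [Cardinal.lift_id]
    rw [card_seq hc, card_seq card_T]
    simp
  have h2 : #(Task I) = #(I →₀ ℤ) * #((ℕ → I) × (ℕ → T)) := by
    rw [Cardinal.mk_prod]
    simp only [Cardinal.lift_id]
  rw [h2, h1, card_finsupp hc]
  simp

end book

section matrix

variable {I : Type} [LinearOrder I] [WellFoundedLT I]

/-- The list of properties of the matrix. -/
structure Good (v : I → I → T) : Prop where
  rel : ∀ g : I →₀ ℤ, g ≠ 0 → ∃ E : Set I, E.Countable ∧
    ∀ c, lc (ev v g) c = 0 → ∀ γ ∈ c.support, γ ∈ E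
  interp : ∀ (g : I →₀ ℤ) (A : ℕ → I) (m : I → T), InM v g m →
    ∃ y : I →₀ ℤ, InM v g (ev v y) ∧ ∀ n, ev v y (A n) = m (A n)
  cauchy : ∀ u : ℕ → I →₀ ℤ, Function.Injective u → ∃ β, ¬ CauchySeq (fun k => ev v (u k) β)

lemma exists_good (hc : #I = 𝔠) (hI : ∀ i : I, #(Iic i) < 𝔠) : ∃ v : I → I → T, Good v := by
  classical
  haveI : Infinite I := by
    rw [Cardinal.infinite_iff, hc]
    exact Cardinal.aleph0_le_continuum
  obtain ⟨τ, hτ⟩ := book (B := Task I) hc (card_task hc).le
  obtain ⟨S, hS⟩ := book (B := ℕ → I →₀ ℤ) hc (card_seq (card_finsupp hc)).le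
  obtain ⟨v, hv⟩ := exists_rec (I := I) (0 : I → T) (Step S τ) (fun α p => exists_step hI S τ α p)
  choose E hE hind hpr htask using hv
  have hcut : ∀ (α : I) (g : I →₀ ℤ), (∀ δ, α < δ → g δ = 0) →
      ev (cut 0 α v) (g.erase α) = ev v (g.erase α) := by
    intro α g hg
    apply ev_cut
    intro δ hδ
    rw [Finsupp.support_erase, Finset.mem_erase] at hδ
    rcases lt_trichotomy δ α with h | h | h
    · exact h
    · exact absurd h hδ.1
    · exact absurd (hg δ h) (Finsupp.mem_support_iff.1 hδ.2)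
  have hval : ∀ (α : I) (g : I →₀ ℤ) (β : I), ev v (g.erase α) β + g α • v α β = ev v g β := by
    intro α g β
    have h1 : g = Finsupp.single α (g α) + g.erase α := (Finsupp.single_add_erase α g).symm
    conv_rhs => rw [h1, ev_add, ev_single]
    simp only [Pi.add_apply, Pi.smul_apply]
    rw [add_comm]
  -- relations
  have hrel : ∀ g : I →₀ ℤ, g ≠ 0 → ∃ E : Set I, E.Countable ∧
      ∀ c, lc (ev v g) c = 0 → ∀ γ ∈ c.support, γ ∈ E := by
    intro g hg
    have hne : g.support.Nonempty := Finsupp.support_nonempty_iff.2 hg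
    set α := g.support.max' hne with hα
    have hαm : α ∈ g.support := Finset.max'_mem _ hne
    have hgα : ∀ δ, α < δ → g δ = 0 := by
      intro δ hδ
      by_contra hcon
      exact absurd (Finset.le_max' _ _ (Finsupp.mem_support_iff.2 hcon)) (not_le.2 hδ)
    refine ⟨E α, hE α, fun c hc => hind α (g.erase α) ?_ (g α) (Finsupp.mem_support_iff.1 hαm) c ?_⟩
    · intro δ hδ
      rw [Finsupp.support_erase, Finset.mem_erase] at hδ
      exact lt_of_le_of_ne (Finset.le_max' _ _ hδ.2) hδ.1
    · rw [hcut α g hgα]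
      rw [← hc]
      congr 1
      funext β
      exact hval α g β
  refine ⟨v, hrel, ?_, ?_⟩
  · intro g A m hm
    -- a bound for the support of g
    have hbd : ∃ s : Set I, #s < 𝔠 ∧ ∀ α, α ∉ s → ∀ δ ∈ g.support, δ < α := by
      by_cases hg : g = 0
      · refine ⟨∅, ?_, ?_⟩
        · rw [Cardinal.mk_emptyCollection]
          exact Cardinal.continuum_pos
        · intro α _ δ hδ
          rw [hg] at hδ
          simp at hδ
      · have hne : g.support.Nonempty := Finsupp.support_nonempty_iff.2 hg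
        refine ⟨Iic (g.support.max' hne), hI _, ?_⟩
        intro α hα δ hδ
        rw [mem_Iic, not_le] at hα
        exact (Finset.le_max' _ _ hδ).trans_lt hα
    obtain ⟨s, hs, hs2⟩ := hbd
    obtain ⟨α, hα, hα2⟩ := hτ (g, A, fun n => m (A n)) s hs
    have hev : ev (cut 0 α v) g = ev v g := ev_cut v (hs2 α hα)
    have h1 := htask α
    rw [hα2] at h1
    unfold Rel InM at h1
    simp only [hev] at h1
    obtain ⟨h2, h3⟩ := h1 (by
      by_cases hg : g = 0
      · exact ⟨∅, countable_empty, Or.inl hg⟩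
      · obtain ⟨E0, hE0, hE1⟩ := hrel g hg
        exact ⟨E0, hE0, Or.inr hE1⟩) ⟨m, hm, fun n => rfl⟩
    refine ⟨Finsupp.single α 1, ?_, ?_⟩
    · rw [ev_single, one_smul]
      exact h2
    · intro n
      rw [ev_single, one_smul]
      exact h3 n
  · -- no Cauchy sequences
    have hcore : ∀ w : ℕ → I →₀ ℤ, (TypeI w ∨ TypeII w) → ∃ β, ¬ CauchySeq (fun k => ev v (w k) β) := by
      intro w hw
      by_cases h1 : TypeI w
      · obtain ⟨μ, hμ, hμ2⟩ := h1
        have hcount : (⋃ k, E (μ k)).Countable := countable_iUnion fun k => hE _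
        obtain ⟨β, hβ, hβ2⟩ := hS w (⋃ k, E (μ k))
          (hcount.le_aleph0.trans_lt Cardinal.aleph0_lt_continuum)
        have hclose : ∀ k, ‖ev v (w k) β - arc k‖ < 1 / 8 := by
          intro k
          have hβk : β ∉ E (μ k) := fun h => hβ (mem_iUnion.2 ⟨k, h⟩)
          have h2 := (hpr (μ k) β hβk).1
          rw [hβ2] at h2
          have h3 := h2 ⟨μ, hμ, hμ2⟩ k (hμ2 k).1 (hμ2 k).2
          rw [hcut (μ k) (w k) (hμ2 k).1, hval] at h3
          exact h3
        refine ⟨β, fun hC => ?_⟩
        rw [Metric.cauchySeq_iff] at hC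
        obtain ⟨N, hN⟩ := hC (1 / 4) (by norm_num)
        have h2 := hN (2 * N) (by omega) (2 * N + 1) (by omega)
        rw [dist_eq_norm] at h2
        have h3 := hclose (2 * N)
        have h4 := hclose (2 * N + 1)
        have ha : arc (2 * N) = 0 := by
          unfold arc
          rw [if_pos (by simp)]
        have hb : arc (2 * N + 1) = ((1 / 2 : ℝ) : T) := by
          unfold arc
          rw [if_neg (by simp)]
        rw [ha] at h3
        rw [hb] at h4
        have h5 : ‖((1 / 2 : ℝ) : T)‖ = 1 / 2 := by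
          have := AddCircle.norm_half_period_eq (1 : ℝ)
          simpa using this
        have h6 : ‖((1 / 2 : ℝ) : T)‖ ≤ ‖ev v (w (2 * N)) β - 0‖ + ‖ev v (w (2 * N)) β - ev v (w (2 * N + 1)) β‖
            + ‖ev v (w (2 * N + 1)) β - ((1 / 2 : ℝ) : T)‖ := by
          have heq : ((1 / 2 : ℝ) : T) = (ev v (w (2 * N)) β - 0) - (ev v (w (2 * N)) β - ev v (w (2 * N + 1)) β)
            - (ev v (w (2 * N + 1)) β - ((1 / 2 : ℝ) : T)) := by abel
          calc ‖((1 / 2 : ℝ) : T)‖ = ‖(ev v (w (2 * N)) β - 0) - (ev v (w (2 * N)) β - ev v (w (2 * N + 1)) β)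
            - (ev v (w (2 * N + 1)) β - ((1 / 2 : ℝ) : T))‖ := by rw [← heq]
            _ ≤ _ := (norm_sub_le _ _).trans (add_le_add (norm_sub_le _ _) le_rfl)
        rw [h5] at h6
        linarith
      · obtain ⟨μ, hμ, hμ2⟩ := hw.resolve_left h1
        obtain ⟨β, hβ, hβ2⟩ := hS w (E μ) ((hE μ).le_aleph0.trans_lt Cardinal.aleph0_lt_continuum)
        refine ⟨β, ?_⟩
        have h2 := (hpr μ β hβ).2
        rw [hβ2] at h2
        have h3 := h2 h1 hμ hμ2
        intro hC
        apply h3
        have heq : (fun k => ev (cut 0 μ v) ((w k).erase μ) β + (w k) μ • v μ β) = fun k => ev v (w k) β := by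
          funext k
          rw [hcut μ (w k) (hμ k), hval]
        rw [heq]
        exact hC
    intro u hu
    obtain ⟨φ, hφ, c, hc⟩ := concl_of_injective u hu
    obtain ⟨β, hβ⟩ := hcore _ hc
    refine ⟨β, fun hC => hβ ?_⟩
    have h1 : CauchySeq (fun k => ev v (u (φ k)) β) := hC.comp_tendsto hφ.tendsto_atTop
    have h2 : (fun k => ev v (u (φ k) - c) β) = fun k => ev v (u (φ k)) β - ev v c β := by
      funext k
      rw [ev_sub]
      rfl
    rw [h2]
    rw [Metric.cauchySeq_iff] at h1 ⊢
    intro ε hε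
    obtain ⟨N, hN⟩ := h1 ε hε
    refine ⟨N, fun m hm n hn => ?_⟩
    rw [dist_sub_right]
    exact hN m hm n hn

end matrix

end Pool.H432R3.ZG
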