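import Pool.Agent.H432R3.Z4

/-!
# The topological group
-/

set_option autoImplicit false

namespace Pool.H432R3.ZG

open Set Filter
open scoped Topology

variable {I : Type}

lemma mem_nhds_pi_norm (x : I → T) (s : Set (I → T)) :
    s ∈ 𝓝 x ↔ ∃ F : Finset I, ∃ ε : ℝ, 0 < ε ∧ ∀ y : I → T, (∀ i ∈ F, ‖y i - x i‖ < ε) → y ∈ s := by
  classical
  constructor
  · intro hs
    rw [nhds_pi, Filter.mem_pi] at hs
    obtain ⟨J, hJ, t, ht, hts⟩ := hs
    have h1 : ∀ i, ∃ ε : ℝ, 0 < ε ∧ Metric.ball (x i) ε ⊆ t i := fun i =>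
      Metric.mem_nhds_iff.1 (ht i)
    choose ε hε hε2 using h1
    obtain ⟨δ, hδ, hδ2⟩ : ∃ δ : ℝ, 0 < δ ∧ ∀ i ∈ hJ.toFinset, δ ≤ ε i := by
      induction hJ.toFinset using Finset.induction_on with
      | empty => exact ⟨1, one_pos, by simp⟩
      | insert a s ha ih =>
        obtain ⟨δ, hδ, h⟩ := ih
        refine ⟨min δ (ε a), lt_min hδ (hε a), ?_⟩
        intro i hi
        rcases Finset.mem_insert.1 hi with rfl | hi
        · exact min_le_right _ _
        · exact (min_le_left _ _).trans (h i hi)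
    refine ⟨hJ.toFinset, δ, hδ, fun y hy => hts fun i hi => hε2 i ?_⟩
    rw [Metric.mem_ball, dist_eq_norm]
    exact (hy i (hJ.mem_toFinset.2 hi)).trans_le (hδ2 i (hJ.mem_toFinset.2 hi))
  · rintro ⟨F, ε, hε, h⟩
    rw [nhds_pi, Filter.mem_pi]
    refine ⟨F, F.finite_toSet, fun i => Metric.ball (x i) ε, fun i => Metric.ball_mem_nhds _ hε, ?_⟩
    intro y hy
    apply h
    intro i hi
    have := hy i hi
    rwa [Metric.mem_ball, dist_eq_norm] at this

/-- The group topology on the free abelian group. -/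
@[instance_reducible]
noncomputable def top (v : I → I → T) : TopologicalSpace (I →₀ ℤ) :=
  TopologicalSpace.induced (ev v) inferInstance

lemma mem_nhds_top (v : I → I → T) (x : I →₀ ℤ) (s : Set (I →₀ ℤ)) :
    s ∈ @nhds _ (top v) x ↔ ∃ F : Finset I, ∃ ε : ℝ, 0 < ε ∧
      ∀ y : I →₀ ℤ, (∀ i ∈ F, ‖ev v y i - ev v x i‖ < ε) → y ∈ s := by
  letI := top v
  have hnh : 𝓝 x = comap (ev v) (𝓝 (ev v x)) := nhds_induced _ _
  rw [hnh, mem_comap]
  constructor
  · rintro ⟨u, hu, hus⟩
    obtain ⟨F, ε, hε, h⟩ := (mem_nhds_pi_norm _ _).1 hu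
    exact ⟨F, ε, hε, fun y hy => hus (h _ hy)⟩
  · rintro ⟨F, ε, hε, h⟩
    refine ⟨{z | ∀ i ∈ F, ‖z i - ev v x i‖ < ε}, (mem_nhds_pi_norm _ _).2 ⟨F, ε, hε, fun y hy => hy⟩, ?_⟩
    intro y hy
    exact h y hy

/-- `ev` as a homomorphism. -/
noncomputable def evHom (v : I → I → T) : (I →₀ ℤ) →+ (I → T) where
  toFun := ev v
  map_zero' := by
    funext β
    exact lc_zero_right _
  map_add' g h := by
    funext β
    exact lc_add_right _ g h

lemma isTopGroup (v : I → I → T) : @IsTopologicalAddGroup (I →₀ ℤ) (top v) _ :=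
  topologicalAddGroup_induced (evHom v)

lemma norm_half : ‖((1 / 2 : ℝ) : T)‖ = 1 / 2 := by
  have := AddCircle.norm_half_period_eq (1 : ℝ)
  simpa using this

section

variable [LinearOrder I] [WellFoundedLT I] {v : I → I → T} (hv : Good v)
  (hunc : ∀ A : Set I, A.Countable → ∃ β, β ∉ A)

include hv hunc

lemma interp_set (g : I →₀ ℤ) {A : Set I} (hA : A.Countable) (m : I → T) (hm : InM v g m) :
    ∃ y : I →₀ ℤ, InM v g (ev v y) ∧ ∀ i ∈ A, ev v y i = m i := by
  obtain ⟨i0, -⟩ := hunc ∅ countable_empty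
  have hne : (insert i0 A).Nonempty := ⟨i0, mem_insert _ _⟩
  obtain ⟨f, hf⟩ := (hA.insert i0).exists_eq_range hne
  obtain ⟨y, hy, hy2⟩ := hv.interp g f m hm
  refine ⟨y, hy, fun i hi => ?_⟩
  have : i ∈ range f := by
    rw [← hf]
    exact mem_insert_of_mem _ hi
  obtain ⟨n, rfl⟩ := this
  exact hy2 n

lemma ev_injective : Function.Injective (ev v) := by
  have h : Function.Injective (evHom v) := by
    rw [injective_iff_map_eq_zero]
    intro g hg
    by_contra hne
    obtain ⟨E, hE, hE2⟩ := hv.rel g hne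
    obtain ⟨β, hβ⟩ := hunc E hE
    apply hβ
    apply hE2 (Finsupp.single β 1)
    · rw [lc_single]
      have : ev v g β = 0 := congrFun hg β
      rw [this, smul_zero]
    · simp
  exact h

lemma t2 : @T2Space (I →₀ ℤ) (top v) := by
  letI := top v
  have hind : Topology.IsInducing (ev v) := ⟨rfl⟩
  have hemb : Topology.IsEmbedding (ev v) := ⟨hind, ev_injective hv hunc⟩
  exact hemb.t2Space

lemma pseudocompact (f : (I →₀ ℤ) → ℝ) (hf : @Continuous _ _ (top v) _ f) :
    ∃ C, ∀ x, |f x| ≤ C := by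
  classical
  letI := top v
  by_contra hcon
  push Not at hcon
  have h1 : ∀ n : ℕ, ∃ x, (n : ℝ) < |f x| := fun n => hcon n
  choose x hx using h1
  have h2 : ∀ y : I →₀ ℤ, ∃ F : Finset I, ∃ δ : ℝ, 0 < δ ∧
      ∀ z : I →₀ ℤ, (∀ i ∈ F, ‖ev v z i - ev v y i‖ < δ) → |f z - f y| < 1 := by
    intro y
    have : {z | |f z - f y| < 1} ∈ 𝓝 y := by
      have := hf.continuousAt (x := y)
      rw [Metric.continuousAt_iff'] at this
      have h3 := this 1 one_pos
      simp only [Real.dist_eq] at h3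
      exact h3
    exact (mem_nhds_top v y _).1 this
  choose F δ hδ hF using h2
  set A : Set I := ⋃ n, (F (x n) : Set I) with hA
  have hAc : A.Countable := countable_iUnion fun n => (F (x n)).countable_toSet
  obtain ⟨c, hc⟩ := exists_clusterPt_of_compactSpace (map (fun n => ev v (x n)) atTop)
  have hc' : MapClusterPt c atTop (fun n => ev v (x n)) := hc
  rw [mapClusterPt_iff_frequently] at hc'
  obtain ⟨p, -, hp⟩ := interp_set hv hunc 0 hAc c (Or.inl rfl)
  have hs : {z : I → T | ∀ i ∈ (F p).filter (· ∈ A), ‖z i - c i‖ < δ p} ∈ 𝓝 c :=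
    (mem_nhds_pi_norm _ _).2 ⟨_, δ p, hδ p, fun y hy => hy⟩
  obtain ⟨N, hN⟩ := exists_nat_gt (|f p| + 2)
  obtain ⟨n, hn, hnN⟩ := ((hc' _ hs).and_eventually (eventually_ge_atTop N)).exists
  let w : I → T := fun i => if i ∈ A then ev v (x n) i else ev v p i
  obtain ⟨y, -, hy⟩ := interp_set hv hunc 0 (hAc.union (F p).countable_toSet) w (Or.inl rfl)
  have hy1 : |f y - f (x n)| < 1 := by
    apply hF
    intro i hi
    have hiA : i ∈ A := mem_iUnion.2 ⟨n, hi⟩
    rw [hy i (Or.inl hiA)]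
    simp only [w, if_pos hiA, sub_self, norm_zero]
    exact hδ _
  have hy2 : |f y - f p| < 1 := by
    apply hF
    intro i hi
    rw [hy i (Or.inr hi)]
    by_cases hiA : i ∈ A
    · simp only [w, if_pos hiA]
      rw [hp i hiA]
      exact hn i (Finset.mem_filter.2 ⟨hi, hiA⟩)
    · simp only [w, if_neg hiA, sub_self, norm_zero]
      exact hδ _
  have h3 := hx n
  have h4 : (N : ℝ) ≤ n := by exact_mod_cast hnN
  have h5 : |f (x n)| ≤ |f y - f (x n)| + |f y - f p| + |f p| := by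
    have : f (x n) = -(f y - f (x n)) + (f y - f p) + f p := by ring
    calc |f (x n)| = |-(f y - f (x n)) + (f y - f p) + f p| := by rw [← this]
      _ ≤ |-(f y - f (x n)) + (f y - f p)| + |f p| := abs_add_le _ _
      _ ≤ |-(f y - f (x n))| + |f y - f p| + |f p| := by gcongr; exact abs_add_le _ _
      _ = _ := by rw [abs_neg]
  linarith

lemma not_metrizable : ¬ @TopologicalSpace.MetrizableSpace (I →₀ ℤ) (top v) := by
  classical
  letI := top v
  intro hmet
  obtain ⟨U, hU⟩ := (𝓝 (0 : I →₀ ℤ)).exists_antitone_basis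
  have h1 : ∀ n, ∃ F : Finset I, ∃ ε : ℝ, 0 < ε ∧
      ∀ y : I →₀ ℤ, (∀ i ∈ F, ‖ev v y i - ev v 0 i‖ < ε) → y ∈ U n := fun n =>
    (mem_nhds_top v 0 _).1 (hU.1.mem_of_mem trivial)
  choose F ε hε hF using h1
  set A : Set I := ⋃ n, (F n : Set I) with hA
  have hAc : A.Countable := countable_iUnion fun n => (F n).countable_toSet
  obtain ⟨β, hβ⟩ := hunc A hAc
  have hV : {y : I →₀ ℤ | ‖ev v y β‖ < 1 / 4} ∈ 𝓝 (0 : I →₀ ℤ) := by
    refine (mem_nhds_top v 0 _).2 ⟨{β}, 1 / 4, by norm_num, fun y hy => ?_⟩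
    have := hy β (Finset.mem_singleton_self β)
    rw [ev_zero] at this
    simpa using this
  obtain ⟨n, -, hn⟩ := hU.1.mem_iff.1 hV
  obtain ⟨y, -, hy⟩ := interp_set hv hunc 0 (hAc.insert β) (Pi.single β ((1 / 2 : ℝ) : T)) (Or.inl rfl)
  have hyU : y ∈ U n := by
    apply hF
    intro i hi
    have hiA : i ∈ A := mem_iUnion.2 ⟨n, hi⟩
    have hne : i ≠ β := by
      rintro rfl
      exact hβ hiA
    rw [hy i (mem_insert_of_mem _ hiA), Pi.single_eq_of_ne hne, ev_zero]
    simpa using hε n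
  have := hn hyU
  rw [mem_ofPred_eq, hy β (mem_insert _ _), Pi.single_eq_same, norm_half] at this
  norm_num at this

lemma seq_complete (u : ℕ → I →₀ ℤ)
    (hu : ∀ U ∈ @nhds _ (top v) (0 : I →₀ ℤ), ∃ N, ∀ m ≥ N, ∀ n ≥ N, u m - u n ∈ U) :
    ∃ x, Tendsto u atTop (@nhds _ (top v) x) := by
  classical
  letI := top v
  by_cases h : ∃ x, ∃ᶠ n in atTop, u n = x
  · obtain ⟨x, hx⟩ := h
    refine ⟨x, ?_⟩
    intro s hs
    obtain ⟨F, ε, hε, hF⟩ := (mem_nhds_top v x s).1 hs
    obtain ⟨N, hN⟩ := hu {y | ∀ i ∈ F, ‖ev v y i‖ < ε} ((mem_nhds_top v 0 _).2 ⟨F, ε, hε, fun y hy => by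
      intro i hi
      have := hy i hi
      rw [ev_zero] at this
      simpa using this⟩)
    obtain ⟨k, hk, hkN⟩ := (hx.and_eventually (eventually_ge_atTop N)).exists
    rw [mem_map]
    filter_upwards [eventually_ge_atTop N] with m hm
    apply hF
    intro i hi
    have := hN m hm k hkN i hi
    rw [ev_sub, hk] at this
    simpa using this
  · exfalso
    push Not at h
    obtain ⟨φ, -, hφ⟩ := exists_seq_of_forall_finset_exists (fun _ : ℕ => True)
      (fun a b => a < b ∧ u a ≠ u b) (by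
        intro s _
        have h1 : ∀ᶠ n in atTop, ∀ a ∈ s, a < n ∧ u a ≠ u n := by
          rw [Filter.eventually_all_finset]
          intro a _
          have h2 := h (u a)
          filter_upwards [h2, eventually_gt_atTop a] with n hn hn2
          exact ⟨hn2, fun h => hn h.symm⟩
        obtain ⟨n, hn⟩ := h1.exists
        exact ⟨n, trivial, hn⟩)
    have hmono : StrictMono φ := fun a b hab => (hφ a b hab).1
    have hinj : Function.Injective (u ∘ φ) := by
      intro a b hab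
      by_contra hne
      rcases lt_or_gt_of_ne hne with h1 | h1
      · exact (hφ a b h1).2 hab
      · exact (hφ b a h1).2 hab.symm
    obtain ⟨β, hβ⟩ := hv.cauchy _ hinj
    apply hβ
    rw [Metric.cauchySeq_iff]
    intro ε hε
    obtain ⟨N, hN⟩ := hu {y | ‖ev v y β‖ < ε} ((mem_nhds_top v 0 _).2 ⟨{β}, ε, hε, fun y hy => by
      have := hy β (Finset.mem_singleton_self β)
      rw [ev_zero] at this
      simpa using this⟩)
    refine ⟨N, fun m hm n hn => ?_⟩
    have := hN (φ m) (hm.le.trans (hmono.id_le m)) (φ n) (hn.le.trans (hmono.id_le n))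
    rw [mem_ofPred_eq, ev_sub] at this
    rw [dist_eq_norm]
    simpa using this

lemma inM_congr {g : I →₀ ℤ} {E : Set I}
    (hE : ∀ c, lc (ev v g) c = 0 → ∀ γ ∈ c.support, γ ∈ E) {m m' : I → T}
    (hm : ∀ c, lc (ev v g) c = 0 → lc m c = 0) (h : ∀ i ∈ E, m' i = m i) :
    ∀ c, lc (ev v g) c = 0 → lc m' c = 0 := by
  intro c hc
  rw [← hm c hc]
  exact lc_congr fun i hi => h i (hE c hc i hi)

lemma propZ (H : AddSubgroup (I →₀ ℤ)) (hH : @IsClosed _ (top v) (H : Set (I →₀ ℤ)))
    (hz : @TopologicalSpace.IsTopologicalBasis H (@instTopologicalSpaceSubtype _ _ (top v))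
      {s : Set H | @IsClopen H (@instTopologicalSpaceSubtype _ _ (top v)) s}) :
    ∀ g ∈ H, g = 0 := by
  classical
  letI := top v
  intro g hg
  by_contra hne
  obtain ⟨E, hE, hE2⟩ := hv.rel g hne
  obtain ⟨β, hβ⟩ := hunc E hE
  have hInM : ∀ m, InM v g m ↔ ∀ c, lc (ev v g) c = 0 → lc m c = 0 := fun m =>
    ⟨fun h => h.resolve_left hne, fun h => Or.inr h⟩
  -- the set P is contained in H
  have hPH : ∀ y : I →₀ ℤ, InM v g (ev v y) → y ∈ H := by
    intro y hy
    have : y ∈ closure (H : Set (I →₀ ℤ)) := by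
      rw [mem_closure_iff_nhds]
      intro s hs
      obtain ⟨F, ε, hε, hF⟩ := (mem_nhds_top v y s).1 hs
      obtain ⟨k, hk⟩ := kronecker (ev v g) (ev v y) ((hInM _).1 hy) F hε
      refine ⟨k • g, hF _ ?_, H.zsmul_mem hg k⟩
      intro i hi
      rw [ev_smul]
      exact hk i hi
    rwa [hH.closure_eq] at this
  -- a small clopen set
  have hU : IsOpen {y : H | ‖ev v (y : I →₀ ℤ) β‖ < 1 / 4} := by
    have hcev : Continuous (ev v) := continuous_induced_dom
    have hc1 : Continuous (fun y : H => ev v (y : I →₀ ℤ)) := hcev.comp continuous_subtype_val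
    have hc2 : Continuous (fun y : H => ev v (y : I →₀ ℤ) β) := (continuous_apply β).comp hc1
    exact isOpen_lt hc2.norm continuous_const
  obtain ⟨C, hC, h0C, hCU⟩ := hz.exists_subset_of_mem_open (a := (0 : H))
    (u := {y : H | ‖ev v (y : I →₀ ℤ) β‖ < 1 / 4}) (by
      have : ev v (((0 : H) : H) : I →₀ ℤ) β = 0 := by
        have h1 : (((0 : H) : H) : I →₀ ℤ) = 0 := rfl
        rw [h1, ev_zero]
        rfl
      rw [mem_ofPred_eq, this]
      norm_num) hU
  have hCclopen : IsClopen C := hC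
  let inC : (I →₀ ℤ) → Prop := fun y => ∃ h : y ∈ H, (⟨y, h⟩ : H) ∈ C
  have hloc : ∀ x : I →₀ ℤ, ∃ F : Finset I, ∃ δ : ℝ, 0 < δ ∧ (x ∈ H → ∀ y ∈ H,
      (∀ i ∈ F, ‖ev v y i - ev v x i‖ < δ) → (inC y ↔ inC x)) := by
    intro x
    by_cases hx : x ∈ H
    · by_cases hxC : (⟨x, hx⟩ : H) ∈ C
      · obtain ⟨O, hO, hO2⟩ := isOpen_induced_iff.1 hCclopen.isOpen
        have hxO : x ∈ O := by
          have : (⟨x, hx⟩ : H) ∈ (Subtype.val ⁻¹' O : Set H) := by
            rw [hO2]
            exact hxC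
          exact this
        obtain ⟨F, ε, hε, hF⟩ := (mem_nhds_top v x O).1 (hO.mem_nhds hxO)
        refine ⟨F, ε, hε, fun _ y hy hyF => ?_⟩
        have hyO := hF y hyF
        have hyC : (⟨y, hy⟩ : H) ∈ C := by
          rw [← hO2]
          exact hyO
        exact ⟨fun _ => ⟨hx, hxC⟩, fun _ => ⟨hy, hyC⟩⟩
      · obtain ⟨O, hO, hO2⟩ := isOpen_induced_iff.1 hCclopen.compl.isOpen
        have hxO : x ∈ O := by
          have : (⟨x, hx⟩ : H) ∈ (Subtype.val ⁻¹' O : Set H) := by
            rw [hO2]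
            exact hxC
          exact this
        obtain ⟨F, ε, hε, hF⟩ := (mem_nhds_top v x O).1 (hO.mem_nhds hxO)
        refine ⟨F, ε, hε, fun _ y hy hyF => ?_⟩
        have hyO := hF y hyF
        have hyC : (⟨y, hy⟩ : H) ∈ Cᶜ := by
          rw [← hO2]
          exact hyO
        constructor
        · rintro ⟨h, h'⟩
          exact absurd h' hyC
        · rintro ⟨h, h'⟩
          exact absurd h' hxC
    · exact ⟨∅, 1, one_pos, fun h => absurd h hx⟩
  choose F δ hδ hF using hloc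
  -- uniform clopenness
  have hunif : ∃ F0 : Finset I, ∃ ε : ℝ, 0 < ε ∧ ∀ x y : I →₀ ℤ, InM v g (ev v x) → InM v g (ev v y) →
      (∀ i ∈ F0, ‖ev v y i - ev v x i‖ < ε) → inC x → inC y := by
    by_contra hcon
    push Not at hcon
    have hcon' : ∀ (F0 : Finset I) (n : ℕ), ∃ xy : (I →₀ ℤ) × (I →₀ ℤ), InM v g (ev v xy.1) ∧
        InM v g (ev v xy.2) ∧ (∀ i ∈ F0, ‖ev v xy.2 i - ev v xy.1 i‖ < 1 / ((n : ℝ) + 1)) ∧
        inC xy.1 ∧ ¬ inC xy.2 := by
      intro F0 n
      obtain ⟨x, y, h1, h2, h3, h4, h5⟩ := hcon F0 (1 / ((n : ℝ) + 1)) (by positivity)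
      exact ⟨(x, y), h1, h2, h3, h4, h5⟩
    choose P hP1 hP2 hP3 hP4 hP5 using hcon'
    obtain ⟨i0, -⟩ := hunc ∅ countable_empty
    obtain ⟨e, he⟩ := (hE.insert i0).exists_eq_range ⟨i0, mem_insert _ _⟩
    let s : ℕ → Finset I := fun n => Nat.rec (motive := fun _ => Finset I) ∅ (fun n G =>
      G ∪ {e n} ∪ F (P G n).1 ∪ F (P G n).2) n
    have hs : ∀ n, s (n + 1) = s n ∪ {e n} ∪ F (P (s n) n).1 ∪ F (P (s n) n).2 := fun n => rfl
    have hsmono : Monotone s := by
      apply monotone_nat_of_le_succ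
      intro n
      rw [hs n]
      intro i hi
      simp only [Finset.mem_union]
      exact Or.inl (Or.inl (Or.inl hi))
    set x : ℕ → I →₀ ℤ := fun n => (P (s n) n).1 with hxdef
    set y : ℕ → I →₀ ℤ := fun n => (P (s n) n).2 with hydef
    set A : Set I := {i | ∃ n, i ∈ s n} with hA
    have hAc : A.Countable := by
      refine (countable_iUnion fun n => (s n).countable_toSet).mono ?_
      rintro i ⟨n, hn⟩
      exact mem_iUnion.2 ⟨n, hn⟩
    have hEA : ∀ i ∈ E, i ∈ A := by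
      intro i hi
      have : i ∈ range e := by
        rw [← he]
        exact mem_insert_of_mem _ hi
      obtain ⟨n, rfl⟩ := this
      refine ⟨n + 1, ?_⟩
      rw [hs n]
      simp
    have hFx : ∀ n, ∀ i ∈ F (x n), i ∈ A := by
      intro n i hi
      refine ⟨n + 1, ?_⟩
      rw [hs n]
      simp only [Finset.mem_union]
      exact Or.inl (Or.inr hi)
    have hFy : ∀ n, ∀ i ∈ F (y n), i ∈ A := by
      intro n i hi
      refine ⟨n + 1, ?_⟩
      rw [hs n]
      simp only [Finset.mem_union]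
      exact Or.inr hi
    obtain ⟨c, hc⟩ := exists_clusterPt_of_compactSpace (map (fun n => ev v (x n)) atTop)
    have hc' : MapClusterPt c atTop (fun n => ev v (x n)) := hc
    rw [mapClusterPt_iff_frequently] at hc'
    have hcM : ∀ c0, lc (ev v g) c0 = 0 → lc c c0 = 0 := by
      intro c0 hc0
      by_contra hcne
      have hopen : IsOpen {z : I → T | lc z c0 ≠ 0} :=
        isOpen_ne_fun (continuous_lc c0) continuous_const
      obtain ⟨n, hn⟩ := (hc' _ (hopen.mem_nhds hcne)).exists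
      exact hn ((hInM _).1 (hP1 (s n) n) c0 hc0)
    obtain ⟨p, hpM, hp⟩ := interp_set hv hunc g hAc c (Or.inr hcM)
    have hpH : p ∈ H := hPH p hpM
    -- choose n
    have hN : ∃ N : ℕ, ∀ i ∈ F p, (i ∈ A → i ∈ s N) := by
      have : ∀ i ∈ F p, ∀ᶠ n : ℕ in atTop, (i ∈ A → i ∈ s n) := by
        intro i hi
        by_cases hiA : i ∈ A
        · obtain ⟨n, hn⟩ := hiA
          filter_upwards [eventually_ge_atTop n] with k hk
          intro _
          exact hsmono hk hn
        · exact Eventually.of_forall fun n h => absurd h hiA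
      have h2 := (Filter.eventually_all_finset _).2 this
      obtain ⟨N, hN⟩ := h2.exists
      exact ⟨N, hN⟩
    obtain ⟨N, hN⟩ := hN
    obtain ⟨N', hN'⟩ := exists_nat_one_div_lt (half_pos (hδ p))
    have hset : {z : I → T | ∀ i ∈ F p, ‖z i - c i‖ < δ p / 2} ∈ 𝓝 c :=
      (mem_nhds_pi_norm _ _).2 ⟨_, δ p / 2, half_pos (hδ p), fun y hy => hy⟩
    obtain ⟨n, hn, hnN⟩ := ((hc' _ hset).and_eventually (eventually_ge_atTop (max N N'))).exists
    have hside : ∀ q : I →₀ ℤ, InM v g (ev v q) → (∀ i ∈ F q, i ∈ A) →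
        (∀ i ∈ F p, i ∈ A → ‖ev v q i - c i‖ < δ p) → (inC p ↔ inC q) := by
      intro q hq hqA hqc
      let w : I → T := fun i => if i ∈ A then ev v q i else ev v p i
      have hwM : InM v g w := Or.inr (inM_congr hv hunc hE2 ((hInM _).1 hq) (fun i hi => by
        simp only [w, if_pos (hEA i hi)]))
      obtain ⟨z, hzM, hz⟩ := interp_set hv hunc g (hAc.union (F p).countable_toSet) w hwM
      have hzH := hPH z hzM
      have hqH := hPH q hq
      have h1 : inC z ↔ inC q := by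
        apply hF q hqH z hzH
        intro i hi
        have hiA := hqA i hi
        rw [hz i (Or.inl hiA)]
        simp only [w, if_pos hiA, sub_self, norm_zero]
        exact hδ q
      have h2 : inC z ↔ inC p := by
        apply hF p hpH z hzH
        intro i hi
        rw [hz i (Or.inr hi)]
        by_cases hiA : i ∈ A
        · simp only [w, if_pos hiA]
          rw [hp i hiA]
          exact hqc i hi hiA
        · simp only [w, if_neg hiA, sub_self, norm_zero]
          exact hδ p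
      exact h2.symm.trans h1
    have hx1 : inC p ↔ inC (x n) := by
      apply hside _ (hP1 (s n) n) (hFx n)
      intro i hi _
      have h1 : ‖ev v (x n) i - c i‖ < δ p / 2 := hn i hi
      linarith [hδ p]
    have hy1 : inC p ↔ inC (y n) := by
      apply hside _ (hP2 (s n) n) (hFy n)
      intro i hi hiA
      have h1 := hn i hi
      have hisn : i ∈ s n := hsmono ((le_max_left _ _).trans hnN) (hN i hi hiA)
      have h2 := hP3 (s n) n i hisn
      have h3 : (1 : ℝ) / ((n : ℝ) + 1) ≤ 1 / ((N' : ℝ) + 1) := by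
        have : (N' : ℝ) ≤ n := by exact_mod_cast (le_max_right _ _).trans hnN
        gcongr
      calc ‖ev v (y n) i - c i‖ = ‖(ev v (y n) i - ev v (x n) i) + (ev v (x n) i - c i)‖ := by
            rw [sub_add_sub_cancel]
        _ ≤ ‖ev v (y n) i - ev v (x n) i‖ + ‖ev v (x n) i - c i‖ := norm_add_le _ _
        _ < δ p := by
          have h4 : ‖ev v (y n) i - ev v (x n) i‖ < 1 / ((n : ℝ) + 1) := h2
          have h5 : ‖ev v (x n) i - c i‖ < δ p / 2 := h1
          linarith
    exact hP5 (s n) n (hy1.1 (hx1.2 (hP4 (s n) n)))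
  -- the chain
  obtain ⟨F0, ε, hε, hchain⟩ := hunif
  obtain ⟨m, hm⟩ := exists_nat_one_div_lt hε
  have hmpos : (0 : ℝ) < (m : ℝ) + 1 := by positivity
  let w : ℕ → I → T := fun j => Pi.single β (((j : ℝ) / (2 * ((m : ℝ) + 1)) : ℝ) : T)
  have hwM : ∀ j, InM v g (w j) := by
    intro j
    refine Or.inr (inM_congr hv hunc hE2 (m := 0) (fun c _ => lc_zero_left c) (fun i hi => ?_))
    have : i ≠ β := by
      rintro rfl
      exact hβ hi
    simp only [w, Pi.single_eq_of_ne this]
    rfl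
  have hy : ∀ j, ∃ y : I →₀ ℤ, InM v g (ev v y) ∧ ∀ i ∈ (insert β F0 : Finset I), ev v y i = w j i := by
    intro j
    obtain ⟨y, h1, h2⟩ := interp_set hv hunc g (insert β F0 : Finset I).countable_toSet (w j) (hwM j)
    exact ⟨y, h1, fun i hi => h2 i hi⟩
  choose y hyM hyw using hy
  have hw0 : ∀ i, w 0 i = 0 := by
    intro i
    simp [w]
  have hstep : ∀ j, inC (y j) := by
    intro j
    induction j with
    | zero =>
      refine hchain 0 (y 0) ?_ (hyM 0) ?_ ⟨H.zero_mem, h0C⟩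
      · rw [ev_zero]
        exact Or.inr fun c _ => lc_zero_left c
      · intro i hi
        rw [hyw 0 i (Finset.mem_insert_of_mem hi), hw0, ev_zero]
        simpa using hε
    | succ j ih =>
      refine hchain (y j) (y (j + 1)) (hyM j) (hyM (j + 1)) ?_ ih
      intro i hi
      rw [hyw (j + 1) i (Finset.mem_insert_of_mem hi), hyw j i (Finset.mem_insert_of_mem hi)]
      by_cases hiβ : i = β
      · subst hiβ
        simp only [w, Pi.single_eq_same]
        have h1 : ((((j + 1 : ℕ) : ℝ) / (2 * ((m : ℝ) + 1)) : ℝ) : T) - (((j : ℝ) / (2 * ((m : ℝ) + 1)) : ℝ) : T)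
            = ((1 / (2 * ((m : ℝ) + 1)) : ℝ) : T) := by
          have h2 : ((((j + 1 : ℕ) : ℝ) / (2 * ((m : ℝ) + 1)) - (j : ℝ) / (2 * ((m : ℝ) + 1)) : ℝ) : T)
            = ((((j + 1 : ℕ) : ℝ) / (2 * ((m : ℝ) + 1)) : ℝ) : T) - (((j : ℝ) / (2 * ((m : ℝ) + 1)) : ℝ) : T) := rfl
          rw [← h2]
          congr 1
          push_cast
          ring
        rw [h1]
        have h3 : ‖((1 / (2 * ((m : ℝ) + 1)) : ℝ) : T)‖ ≤ |1 / (2 * ((m : ℝ) + 1))| := by
          apply le_of_eq
          rw [AddCircle.norm_coe_eq_abs_iff (1 : ℝ) one_ne_zero, abs_of_pos (by positivity), abs_one]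
          have : (0 : ℝ) ≤ m := Nat.cast_nonneg m
          rw [div_le_div_iff₀ (by positivity) (by norm_num)]
          linarith
        refine h3.trans_lt ?_
        rw [abs_of_pos (by positivity)]
        refine lt_of_le_of_lt ?_ hm
        gcongr
        linarith
      · simp only [w, Pi.single_eq_of_ne hiβ, sub_self, norm_zero]
        exact hε
  obtain ⟨hmH, hmC⟩ := hstep (m + 1)
  have h1 := hCU hmC
  rw [mem_ofPred_eq] at h1
  have h2 : ev v (y (m + 1)) β = ((1 / 2 : ℝ) : T) := by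
    rw [hyw (m + 1) β (Finset.mem_insert_self _ _)]
    simp only [w, Pi.single_eq_same]
    congr 1
    push_cast
    field_simp
  have h3 : ‖ev v (y (m + 1)) β‖ < 1 / 4 := h1
  rw [h2, norm_half] at h3
  norm_num at h3

end

end Pool.H432R3.ZG
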