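import Pool.Agent.H432R3.Z5

/-!
# The index set
-/

set_option autoImplicit false

namespace Pool.H432R3.ZG

open Set Cardinal
open scoped Topology

/-- A well-ordered set of order type the continuum. -/
abbrev Ind : Type := (Cardinal.continuum.{0}).ord.ToType

lemma card_Ind : #Ind = 𝔠 := by
  simp [Ind]

lemma card_Iic (i : Ind) : #(Iic i) < 𝔠 := by
  have h1 : #(Iio i) < #Ind := Cardinal.mk_Iio_lt i (by
    rw [card_Ind]
    simp [Ind])
  rw [card_Ind] at h1
  have h2 : (Iic i : Set Ind) = insert i (Iio i) := by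
    ext x
    simp [le_iff_eq_or_lt]
  rw [h2]
  refine (Cardinal.mk_insert_le).trans_lt ?_
  exact Cardinal.add_lt_of_lt Cardinal.aleph0_le_continuum h1
    (Cardinal.one_lt_aleph0.trans Cardinal.aleph0_lt_continuum)

lemma exists_notMem_countable (A : Set Ind) (hA : A.Countable) : ∃ β, β ∉ A := by
  by_contra hcon
  push Not at hcon
  have : A = Set.univ := eq_univ_of_forall hcon
  rw [this] at hA
  have h := hA.le_aleph0
  rw [Cardinal.mk_univ, card_Ind] at h
  exact absurd Cardinal.aleph0_lt_continuum (not_lt.2 h)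

end Pool.H432R3.ZG
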